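import Pool.Agent.CF98.Good

/-!
# SL82: flats of slack one (MP_e6151a_ag, note 2805 of helper21), matroid side

* `max_lift` : the maximum of two elementary lifts is a rank function;
* `max_quot` : the maximum of two elementary quotients is a rank function;
* `ph P p p' Y` : the points `p`, `p'` stand for the set `P`, other elements of `P` are loops;
* `mo r P p p' U₁ U₂` : the elementary lift of `N / P` given by two hyperplanes `U₁`, `U₂` of `P`,
  with the parallel points `p`, `p'` (contracting one of them gives `N / P`);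
* `mi r P t T₁ T₂ g` : the one-point extension of `N | P` by `t`.
-/

set_option autoImplicit false

namespace Pool.Agent.SL82

open Finset Pool.Agent.DT3 Pool.Agent.CF98

variable {α : Type*} [DecidableEq α]

/-- The maximum of two elementary lifts of `q` is a rank function. -/
theorem max_lift {a b q : Finset α → ℕ} (ha : RankFn a) (hb : RankFn b) (hq : RankFn q)
    (ha1 : ∀ X, q X ≤ a X ∧ a X ≤ q X + 1) (hb1 : ∀ X, q X ≤ b X ∧ b X ≤ q X + 1)
    (ha2 : ∀ X Y, X ⊆ Y → a X = q X + 1 → a Y = q Y + 1)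
    (hb2 : ∀ X Y, X ⊆ Y → b X = q X + 1 → b Y = q Y + 1) :
    RankFn (fun X => max (a X) (b X)) := by
  refine ⟨?_, ?_, ?_, ?_⟩
  · show max (a ∅) (b ∅) = 0
    rw [ha.empty, hb.empty]
    rfl
  · intro X Y h
    exact max_le_max (ha.mono X Y h) (hb.mono X Y h)
  · intro x X
    have h1 := ha.insert_le x X
    have h2 := hb.insert_le x X
    show max (a (insert x X)) (b (insert x X)) ≤ max (a X) (b X) + 1
    omega
  · intro X Y
    show max (a (X ∪ Y)) (b (X ∪ Y)) + max (a (X ∩ Y)) (b (X ∩ Y)) ≤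
      max (a X) (b X) + max (a Y) (b Y)
    have h1 := ha.submod X Y
    have h2 := hb.submod X Y
    have h3 := hq.submod X Y
    have a1 := ha1 (X ∪ Y)
    have a2 := ha1 (X ∩ Y)
    have a3 := ha1 X
    have a4 := ha1 Y
    have b1 := hb1 (X ∪ Y)
    have b2 := hb1 (X ∩ Y)
    have b3 := hb1 X
    have b4 := hb1 Y
    have c1 := ha2 (X ∩ Y) X inter_subset_left
    have c2 := ha2 (X ∩ Y) Y inter_subset_right
    have c5 := hb2 (X ∩ Y) X inter_subset_left
    have c6 := hb2 (X ∩ Y) Y inter_subset_right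
    omega

/-- The maximum of two elementary quotients of `q` is a rank function. -/
theorem max_quot {a b q : Finset α → ℕ} (ha : RankFn a) (hb : RankFn b) (hq : RankFn q)
    (ha1 : ∀ X, a X ≤ q X ∧ q X ≤ a X + 1) (hb1 : ∀ X, b X ≤ q X ∧ q X ≤ b X + 1)
    (ha2 : ∀ X Y, X ⊆ Y → a X < q X → a Y < q Y)
    (hb2 : ∀ X Y, X ⊆ Y → b X < q X → b Y < q Y) :
    RankFn (fun X => max (a X) (b X)) := by
  refine ⟨?_, ?_, ?_, ?_⟩
  · show max (a ∅) (b ∅) = 0
    rw [ha.empty, hb.empty]
    rfl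
  · intro X Y h
    exact max_le_max (ha.mono X Y h) (hb.mono X Y h)
  · intro x X
    have h1 := ha.insert_le x X
    have h2 := hb.insert_le x X
    show max (a (insert x X)) (b (insert x X)) ≤ max (a X) (b X) + 1
    omega
  · intro X Y
    show max (a (X ∪ Y)) (b (X ∪ Y)) + max (a (X ∩ Y)) (b (X ∩ Y)) ≤
      max (a X) (b X) + max (a Y) (b Y)
    have h1 := ha.submod X Y
    have h2 := hb.submod X Y
    have h3 := hq.submod X Y
    have a1 := ha1 (X ∪ Y)
    have a2 := ha1 (X ∩ Y)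
    have a3 := ha1 X
    have a4 := ha1 Y
    have b1 := hb1 (X ∪ Y)
    have b2 := hb1 (X ∩ Y)
    have b3 := hb1 X
    have b4 := hb1 Y
    have c1 := ha2 X (X ∪ Y) subset_union_left
    have c2 := ha2 Y (X ∪ Y) subset_union_right
    have c5 := hb2 X (X ∪ Y) subset_union_left
    have c6 := hb2 Y (X ∪ Y) subset_union_right
    omega

/-! ### The outer matroid -/

/-- The points `p`, `p'` stand for the set `P`, the other elements of `P` are loops. -/
def ph (P : Finset α) (p p' : α) (Y : Finset α) : Finset α :=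
  (Y \ P) ∪ (if p ∈ Y ∨ p' ∈ Y then P else ∅)

/-- The elementary lift of `N / P` given by `U₁` and `U₂`, with the parallel points `p`, `p'`. -/
def mo (r : Finset α → ℕ) (P : Finset α) (p p' : α) (U₁ U₂ Y : Finset α) : ℕ :=
  max (r (U₁ ∪ ph P p p' Y) + 1 - r P) (r (U₂ ∪ ph P p p' Y) + 1 - r P)

section outer

variable {r : Finset α → ℕ} {P : Finset α} {p p' : α} {U U₁ U₂ X Y : Finset α}

theorem ph_out (hp : p ∈ P) (hp' : p' ∈ P) (hY : Disjoint Y P) : ph P p p' Y = Y := by
  unfold ph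
  have h1 : ¬ (p ∈ Y ∨ p' ∈ Y) := by
    rintro (h | h)
    · exact disjoint_left.1 hY h hp
    · exact disjoint_left.1 hY h hp'
  rw [if_neg h1, union_empty]
  exact sdiff_eq_self_of_disjoint hY

theorem ph_in (hY : p ∈ Y ∨ p' ∈ Y) : ph P p p' Y = P ∪ Y := by
  unfold ph
  rw [if_pos hY, union_comm, union_sdiff_self_eq_union]

theorem ph_mono (h : X ⊆ Y) : ph P p p' X ⊆ ph P p p' Y := by
  unfold ph
  apply union_subset_union (sdiff_subset_sdiff h (Subset.refl _))
  by_cases h1 : p ∈ X ∨ p' ∈ X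
  · rw [if_pos h1, if_pos (h1.imp (fun k => h k) (fun k => h k))]
  · rw [if_neg h1]
    exact empty_subset _

theorem ph_union : ph P p p' (X ∪ Y) ⊆ ph P p p' X ∪ ph P p p' Y := by
  intro z hz
  unfold ph at hz
  rw [mem_union, mem_sdiff, mem_union] at hz
  rw [mem_union]
  rcases hz with ⟨h1 | h1, h2⟩ | h1
  · left
    exact mem_union_left _ (mem_sdiff.2 ⟨h1, h2⟩)
  · right
    exact mem_union_left _ (mem_sdiff.2 ⟨h1, h2⟩)
  · by_cases h2 : p ∈ X ∪ Y ∨ p' ∈ X ∪ Y
    · rw [if_pos h2] at h1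
      simp only [mem_union] at h2
      by_cases h3 : p ∈ X ∨ p' ∈ X
      · left
        unfold ph
        rw [if_pos h3]
        exact mem_union_right _ h1
      · right
        unfold ph
        have h4 : p ∈ Y ∨ p' ∈ Y := by tauto
        rw [if_pos h4]
        exact mem_union_right _ h1
    · rw [if_neg h2] at h1
      exact absurd h1 (notMem_empty z)

theorem ph_bound (hr : RankFn r) (hU : U ⊆ P) (hUr : r U + 1 = r P) (Z : Finset α) :
    r (P ∪ Z) ≤ r (U ∪ Z) + 1 ∧ r (U ∪ Z) ≤ r (P ∪ Z) ∧ r P ≤ r (U ∪ Z) + 1 ∧ r P ≤ r (P ∪ Z) := by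
  have h1 := hr.submod P (U ∪ Z)
  have h2 : P ∪ (U ∪ Z) = P ∪ Z := by
    rw [← union_assoc, union_eq_left.2 hU]
  have h3 : r U ≤ r (P ∩ (U ∪ Z)) := hr.mono _ _ (subset_inter hU subset_union_left)
  rw [h2] at h1
  have h4 := hr.mono _ _ (union_subset_union hU (Subset.refl Z))
  have h5 := hr.mono U (U ∪ Z) subset_union_left
  have h6 := hr.mono P (P ∪ Z) subset_union_left
  omega

theorem mo_one (hr : RankFn r) (hp : p ∈ P) (hp' : p' ∈ P) (hU : U ⊆ P) (hUr : r U + 1 = r P) :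
    RankFn (fun Y => r (U ∪ ph P p p' Y) + 1 - r P) := by
  refine ⟨?_, ?_, ?_, ?_⟩
  · show r (U ∪ ph P p p' ∅) + 1 - r P = 0
    have : ph P p p' ∅ = ∅ := by
      unfold ph
      simp
    rw [this, union_empty]
    omega
  · intro X Y h
    have := hr.mono _ _ (union_subset_union (Subset.refl U) (ph_mono (P := P) (p := p) (p' := p') h))
    show r (U ∪ ph P p p' X) + 1 - r P ≤ r (U ∪ ph P p p' Y) + 1 - r P
    omega
  · intro x X
    show r (U ∪ ph P p p' (insert x X)) + 1 - r P ≤ r (U ∪ ph P p p' X) + 1 - r P + 1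
    have hb := ph_bound hr hU hUr (X \ P)
    have hm : r (U ∪ X \ P) ≤ r (U ∪ ph P p p' X) :=
      hr.mono _ _ (union_subset_union (Subset.refl U) subset_union_left)
    by_cases h3 : x ∈ P
    · have h4 : r (U ∪ ph P p p' (insert x X)) ≤ r (P ∪ X \ P) := by
        apply hr.mono
        apply union_subset (hU.trans subset_union_left)
        unfold ph
        rw [insert_sdiff_of_mem _ h3]
        apply union_subset subset_union_right
        split_ifs
        · exact subset_union_left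
        · exact empty_subset _
      omega
    · have h4 : U ∪ ph P p p' (insert x X) = insert x (U ∪ ph P p p' X) := by
        have h5 : (p ∈ insert x X ∨ p' ∈ insert x X) ↔ (p ∈ X ∨ p' ∈ X) := by
          simp only [mem_insert]
          constructor
          · rintro ((h | h) | (h | h))
            · exact absurd (h ▸ hp) h3
            · exact Or.inl h
            · exact absurd (h ▸ hp') h3
            · exact Or.inr h
          · rintro (h | h)
            · exact Or.inl (Or.inr h)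
            · exact Or.inr (Or.inr h)
        unfold ph
        simp only [h5]
        rw [insert_sdiff_of_notMem _ h3, insert_union, union_insert]
      rw [h4]
      have := hr.insert_le x (U ∪ ph P p p' X)
      have := ph_bound hr hU hUr (ph P p p' X)
      omega
  · intro X Y
    show r (U ∪ ph P p p' (X ∪ Y)) + 1 - r P + (r (U ∪ ph P p p' (X ∩ Y)) + 1 - r P) ≤
      r (U ∪ ph P p p' X) + 1 - r P + (r (U ∪ ph P p p' Y) + 1 - r P)
    have h1 := hr.submod (U ∪ ph P p p' X) (U ∪ ph P p p' Y)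
    have h2 : r (U ∪ ph P p p' (X ∪ Y)) ≤ r (U ∪ ph P p p' X ∪ (U ∪ ph P p p' Y)) := by
      apply hr.mono
      apply union_subset (subset_union_left.trans subset_union_left)
      refine ph_union.trans (union_subset_union subset_union_right subset_union_right)
    have h3 : r (U ∪ ph P p p' (X ∩ Y)) ≤ r ((U ∪ ph P p p' X) ∩ (U ∪ ph P p p' Y)) := by
      apply hr.mono
      exact subset_inter (union_subset_union (Subset.refl U) (ph_mono inter_subset_left))
        (union_subset_union (Subset.refl U) (ph_mono inter_subset_right))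
    have b1 := ph_bound hr hU hUr (ph P p p' (X ∪ Y))
    have b2 := ph_bound hr hU hUr (ph P p p' (X ∩ Y))
    have b3 := ph_bound hr hU hUr (ph P p p' X)
    have b4 := ph_bound hr hU hUr (ph P p p' Y)
    omega

/-- The quotient `N / P`. -/
theorem mq_one (hr : RankFn r) :
    RankFn (fun Y => r (P ∪ ph P p p' Y) - r P) := by
  have key : ∀ Y, P ∪ ph P p p' Y = P ∪ Y := by
    intro Y
    unfold ph
    rw [← union_assoc, union_sdiff_self_eq_union]
    split_ifs
    · rw [union_comm, ← union_assoc, union_self]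
    · rw [union_empty]
  refine ⟨?_, ?_, ?_, ?_⟩
  · show r (P ∪ ph P p p' ∅) - r P = 0
    rw [key, union_empty]
    omega
  · intro X Y h
    show r (P ∪ ph P p p' X) - r P ≤ r (P ∪ ph P p p' Y) - r P
    rw [key, key]
    have := hr.mono _ _ (union_subset_union (Subset.refl P) h)
    omega
  · intro x X
    show r (P ∪ ph P p p' (insert x X)) - r P ≤ r (P ∪ ph P p p' X) - r P + 1
    rw [key, key, union_insert]
    have := hr.insert_le x (P ∪ X)
    omega
  · intro X Y
    show r (P ∪ ph P p p' (X ∪ Y)) - r P + (r (P ∪ ph P p p' (X ∩ Y)) - r P) ≤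
      r (P ∪ ph P p p' X) - r P + (r (P ∪ ph P p p' Y) - r P)
    rw [key, key, key, key]
    have h1 := hr.submod (P ∪ X) (P ∪ Y)
    have h2 : P ∪ X ∪ (P ∪ Y) = P ∪ (X ∪ Y) := by
      ext z
      simp only [mem_union]
      tauto
    have h3 : (P ∪ X) ∩ (P ∪ Y) = P ∪ X ∩ Y := by
      ext z
      simp only [mem_union, mem_inter]
      tauto
    rw [h2, h3] at h1
    have b1 := hr.mono P (P ∪ (X ∪ Y)) subset_union_left
    have b2 := hr.mono P (P ∪ X ∩ Y) subset_union_left
    have b3 := hr.mono P (P ∪ X) subset_union_left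
    have b4 := hr.mono P (P ∪ Y) subset_union_left
    omega

theorem mo_two (hr : RankFn r) (hU : U ⊆ P) (hUr : r U + 1 = r P) (hXY : X ⊆ Y)
    (h : r (U ∪ ph P p p' X) + 1 - r P = r (P ∪ ph P p p' X) - r P + 1) :
    r (U ∪ ph P p p' Y) + 1 - r P = r (P ∪ ph P p p' Y) - r P + 1 := by
  have b1 := ph_bound hr hU hUr (ph P p p' X)
  have b2 := ph_bound hr hU hUr (ph P p p' Y)
  have h1 := hr.submod (P ∪ ph P p p' X) (U ∪ ph P p p' Y)
  have h2 : P ∪ ph P p p' X ∪ (U ∪ ph P p p' Y) = P ∪ ph P p p' Y := by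
    have h3 : ph P p p' X ⊆ ph P p p' Y := ph_mono hXY
    ext z
    simp only [mem_union]
    constructor
    · rintro ((h | h) | (h | h))
      · exact Or.inl h
      · exact Or.inr (h3 h)
      · exact Or.inl (hU h)
      · exact Or.inr h
    · rintro (h | h)
      · exact Or.inl (Or.inl h)
      · exact Or.inr (Or.inr h)
  have h4 : r (U ∪ ph P p p' X) ≤ r ((P ∪ ph P p p' X) ∩ (U ∪ ph P p p' Y)) := by
    apply hr.mono
    exact subset_inter (union_subset_union hU (Subset.refl _))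
      (union_subset_union (Subset.refl U) (ph_mono hXY))
  rw [h2] at h1
  omega

/-- The elementary lift with the two parallel points is a matroid. -/
theorem mo_rk (hr : RankFn r) (hp : p ∈ P) (hp' : p' ∈ P) (hU₁ : U₁ ⊆ P) (hU₂ : U₂ ⊆ P)
    (h1 : r U₁ + 1 = r P) (h2 : r U₂ + 1 = r P) : RankFn (mo r P p p' U₁ U₂) := by
  have := max_lift (mo_one hr hp hp' hU₁ h1) (mo_one hr hp hp' hU₂ h2) (mq_one hr)
    (fun X => by
      have := ph_bound hr hU₁ h1 (ph P p p' X)
      show r (P ∪ ph P p p' X) - r P ≤ r (U₁ ∪ ph P p p' X) + 1 - r P ∧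
        r (U₁ ∪ ph P p p' X) + 1 - r P ≤ r (P ∪ ph P p p' X) - r P + 1
      omega)
    (fun X => by
      have := ph_bound hr hU₂ h2 (ph P p p' X)
      show r (P ∪ ph P p p' X) - r P ≤ r (U₂ ∪ ph P p p' X) + 1 - r P ∧
        r (U₂ ∪ ph P p p' X) + 1 - r P ≤ r (P ∪ ph P p p' X) - r P + 1
      omega)
    (fun X Y hXY => mo_two hr hU₁ h1 hXY) (fun X Y hXY => mo_two hr hU₂ h2 hXY)
  exact this

theorem mo_out (hr : RankFn r) (hp : p ∈ P) (hp' : p' ∈ P) (hU₁ : U₁ ⊆ P) (hU₂ : U₂ ⊆ P)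
    (h1 : r U₁ + 1 = r P) (h2 : r U₂ + 1 = r P) (hY : Disjoint Y P) :
    mo r P p p' U₁ U₂ Y + r P = max (r (U₁ ∪ Y)) (r (U₂ ∪ Y)) + 1 := by
  unfold mo
  rw [ph_out hp hp' hY]
  have b1 := ph_bound hr hU₁ h1 Y
  have b2 := ph_bound hr hU₂ h2 Y
  omega

theorem mo_in (hr : RankFn r) (hU₁ : U₁ ⊆ P) (hU₂ : U₂ ⊆ P) (hY : p ∈ Y ∨ p' ∈ Y) :
    mo r P p p' U₁ U₂ Y + r P = r (P ∪ Y) + 1 := by
  unfold mo
  rw [ph_in hY, ← union_assoc, ← union_assoc, union_eq_right.2 hU₁, union_eq_right.2 hU₂]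
  have := hr.mono P (P ∪ Y) subset_union_left
  omega

end outer

/-! ### The inner matroid -/

/-- The one-point extension of `N | P` by `t` given by the outer sets `T₁`, `T₂`. -/
def mi (r : Finset α → ℕ) (P : Finset α) (t : α) (T₁ T₂ : Finset α) (g : ℕ) (Y : Finset α) : ℕ :=
  if t ∈ Y then max (r (T₁ ∪ Y ∩ P) - g) (r (T₂ ∪ Y ∩ P) - g) else r (Y ∩ P)

section inner

variable {r : Finset α → ℕ} {P : Finset α} {t : α} {T T₁ T₂ X Y Z : Finset α} {g : ℕ}

theorem mi_bound (hr : RankFn r) (hT : T.card = g + 1) (hTP : r (T ∪ P) = r P + g) (hZ : Z ⊆ P) :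
    r Z + g ≤ r (T ∪ Z) ∧ r (T ∪ Z) ≤ r Z + g + 1 := by
  have h1 := hr.submod (T ∪ Z) P
  have h2 : T ∪ Z ∪ P = T ∪ P := by
    rw [union_assoc, union_eq_right.2 hZ]
  have h3 : r Z ≤ r ((T ∪ Z) ∩ P) := hr.mono _ _ (subset_inter subset_union_right hZ)
  have h4 := hr.submod T Z
  have h5 := hr.le_card T
  rw [h2] at h1
  omega

theorem mi_one (hr : RankFn r) (ht : t ∉ P) (hT : T.card = g + 1) (hTP : r (T ∪ P) = r P + g) :
    RankFn (fun Y => if t ∈ Y then r (T ∪ Y ∩ P) - g else r (Y ∩ P)) := by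
  have hb : ∀ Y, r (Y ∩ P) + g ≤ r (T ∪ Y ∩ P) ∧ r (T ∪ Y ∩ P) ≤ r (Y ∩ P) + g + 1 :=
    fun Y => mi_bound hr hT hTP inter_subset_right
  refine ⟨?_, ?_, ?_, ?_⟩
  · show (if t ∈ (∅ : Finset α) then r (T ∪ ∅ ∩ P) - g else r (∅ ∩ P)) = 0
    rw [if_neg (notMem_empty t), empty_inter]
    exact hr.empty
  · intro X Y h
    show (if t ∈ X then r (T ∪ X ∩ P) - g else r (X ∩ P)) ≤
      (if t ∈ Y then r (T ∪ Y ∩ P) - g else r (Y ∩ P))
    have h1 : X ∩ P ⊆ Y ∩ P := inter_subset_inter h (Subset.refl P)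
    have h2 := hr.mono _ _ h1
    have h3 := hr.mono _ _ (union_subset_union (Subset.refl T) h1)
    have h4 := hb X
    have h5 := hb Y
    by_cases hX : t ∈ X
    · rw [if_pos hX, if_pos (h hX)]
      omega
    · rw [if_neg hX]
      split_ifs <;> omega
  · intro x X
    show (if t ∈ insert x X then r (T ∪ insert x X ∩ P) - g else r (insert x X ∩ P)) ≤
      (if t ∈ X then r (T ∪ X ∩ P) - g else r (X ∩ P)) + 1
    have h4 := hb X
    have h1 : r (insert x X ∩ P) ≤ r (X ∩ P) + 1 := by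
      refine le_trans (hr.mono _ (insert x (X ∩ P)) ?_) (hr.insert_le x (X ∩ P))
      intro z hz
      simp only [mem_inter, mem_insert] at hz ⊢
      tauto
    have h2 : r (T ∪ insert x X ∩ P) ≤ r (T ∪ X ∩ P) + 1 := by
      refine le_trans (hr.mono _ (insert x (T ∪ X ∩ P)) ?_) (hr.insert_le x (T ∪ X ∩ P))
      intro z hz
      simp only [mem_inter, mem_insert, mem_union] at hz ⊢
      tauto
    have h5 := hb (insert x X)
    by_cases hx : t ∈ X
    · rw [if_pos hx, if_pos (mem_insert_of_mem hx)]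
      omega
    · rw [if_neg hx]
      split_ifs with hx'
      · rw [mem_insert] at hx'
        rcases hx' with hx' | hx'
        · rw [← hx', insert_inter_of_notMem ht]
          omega
        · exact absurd hx' hx
      · omega
  · intro X Y
    show (if t ∈ X ∪ Y then r (T ∪ (X ∪ Y) ∩ P) - g else r ((X ∪ Y) ∩ P)) +
      (if t ∈ X ∩ Y then r (T ∪ (X ∩ Y) ∩ P) - g else r ((X ∩ Y) ∩ P)) ≤
      (if t ∈ X then r (T ∪ X ∩ P) - g else r (X ∩ P)) +
      (if t ∈ Y then r (T ∪ Y ∩ P) - g else r (Y ∩ P))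
    have b1 := hb (X ∪ Y)
    have b2 := hb (X ∩ Y)
    have b3 := hb X
    have b4 := hb Y
    have e1 : (X ∪ Y) ∩ P = X ∩ P ∪ Y ∩ P := union_inter_distrib_right X Y P
    have e2 : (X ∩ Y) ∩ P ⊆ X ∩ P := inter_subset_inter inter_subset_left (Subset.refl P)
    have e3 : (X ∩ Y) ∩ P ⊆ Y ∩ P := inter_subset_inter inter_subset_right (Subset.refl P)
    by_cases hX : t ∈ X
    · by_cases hY : t ∈ Y
      · rw [if_pos hX, if_pos hY, if_pos (mem_union_left _ hX), if_pos (mem_inter.2 ⟨hX, hY⟩)]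
        have h1 := hr.submod (T ∪ X ∩ P) (T ∪ Y ∩ P)
        have h2 : r (T ∪ (X ∪ Y) ∩ P) ≤ r (T ∪ X ∩ P ∪ (T ∪ Y ∩ P)) := by
          apply hr.mono
          rw [e1]
          intro z hz
          simp only [mem_union] at hz ⊢
          tauto
        have h3 : r (T ∪ (X ∩ Y) ∩ P) ≤ r ((T ∪ X ∩ P) ∩ (T ∪ Y ∩ P)) := by
          apply hr.mono
          exact subset_inter (union_subset_union (Subset.refl T) e2)
            (union_subset_union (Subset.refl T) e3)
        omega
      · rw [if_pos hX, if_neg hY, if_pos (mem_union_left _ hX),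
          if_neg (fun h => hY (mem_inter.1 h).2)]
        have h1 := hr.submod (T ∪ X ∩ P) (Y ∩ P)
        have h2 : T ∪ X ∩ P ∪ Y ∩ P = T ∪ (X ∪ Y) ∩ P := by
          rw [e1, union_assoc]
        have h3 : r ((X ∩ Y) ∩ P) ≤ r ((T ∪ X ∩ P) ∩ (Y ∩ P)) :=
          hr.mono _ _ (subset_inter (e2.trans subset_union_right) e3)
        rw [h2] at h1
        omega
    · by_cases hY : t ∈ Y
      · rw [if_neg hX, if_pos hY, if_pos (mem_union_right _ hY),
          if_neg (fun h => hX (mem_inter.1 h).1)]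
        have h1 := hr.submod (X ∩ P) (T ∪ Y ∩ P)
        have h2 : X ∩ P ∪ (T ∪ Y ∩ P) = T ∪ (X ∪ Y) ∩ P := by
          rw [e1]
          ext z
          simp only [mem_union]
          tauto
        have h3 : r ((X ∩ Y) ∩ P) ≤ r ((X ∩ P) ∩ (T ∪ Y ∩ P)) :=
          hr.mono _ _ (subset_inter e2 (e3.trans subset_union_right))
        rw [h2] at h1
        omega
      · rw [if_neg hX, if_neg hY, if_neg (fun h => (mem_union.1 h).elim hX hY),
          if_neg (fun h => hX (mem_inter.1 h).1)]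
        have h1 := hr.submod (X ∩ P) (Y ∩ P)
        have h3 : r ((X ∩ Y) ∩ P) ≤ r ((X ∩ P) ∩ (Y ∩ P)) :=
          hr.mono _ _ (subset_inter e2 e3)
        rw [e1]
        omega

/-- The direct sum of `N | P` and the coloop `t`. -/
theorem mi_free (hr : RankFn r) (ht : t ∉ P) :
    RankFn (fun Y => if t ∈ Y then r (Y ∩ P) + 1 else r (Y ∩ P)) := by
  refine ⟨?_, ?_, ?_, ?_⟩
  · show (if t ∈ (∅ : Finset α) then r (∅ ∩ P) + 1 else r (∅ ∩ P)) = 0
    rw [if_neg (notMem_empty t), empty_inter]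
    exact hr.empty
  · intro X Y h
    show (if t ∈ X then r (X ∩ P) + 1 else r (X ∩ P)) ≤ (if t ∈ Y then r (Y ∩ P) + 1 else r (Y ∩ P))
    have h2 := hr.mono _ _ (inter_subset_inter h (Subset.refl P))
    by_cases hX : t ∈ X
    · rw [if_pos hX, if_pos (h hX)]
      omega
    · rw [if_neg hX]
      split_ifs <;> omega
  · intro x X
    show (if t ∈ insert x X then r (insert x X ∩ P) + 1 else r (insert x X ∩ P)) ≤
      (if t ∈ X then r (X ∩ P) + 1 else r (X ∩ P)) + 1
    have h1 : r (insert x X ∩ P) ≤ r (X ∩ P) + 1 := by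
      refine le_trans (hr.mono _ (insert x (X ∩ P)) ?_) (hr.insert_le x (X ∩ P))
      intro z hz
      simp only [mem_inter, mem_insert] at hz ⊢
      tauto
    by_cases hx : t ∈ X
    · rw [if_pos hx, if_pos (mem_insert_of_mem hx)]
      omega
    · rw [if_neg hx]
      split_ifs with hx'
      · rw [mem_insert] at hx'
        rcases hx' with hx' | hx'
        · rw [← hx', insert_inter_of_notMem ht]
        · exact absurd hx' hx
      · omega
  · intro X Y
    show (if t ∈ X ∪ Y then r ((X ∪ Y) ∩ P) + 1 else r ((X ∪ Y) ∩ P)) +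
      (if t ∈ X ∩ Y then r ((X ∩ Y) ∩ P) + 1 else r ((X ∩ Y) ∩ P)) ≤
      (if t ∈ X then r (X ∩ P) + 1 else r (X ∩ P)) +
      (if t ∈ Y then r (Y ∩ P) + 1 else r (Y ∩ P))
    have e1 : (X ∪ Y) ∩ P = X ∩ P ∪ Y ∩ P := union_inter_distrib_right X Y P
    have e2 : (X ∩ Y) ∩ P = (X ∩ P) ∩ (Y ∩ P) := by
      ext z
      simp only [mem_inter]
      tauto
    have h1 := hr.submod (X ∩ P) (Y ∩ P)
    rw [e1, e2]
    by_cases hX : t ∈ X
    · by_cases hY : t ∈ Y
      · rw [if_pos hX, if_pos hY, if_pos (mem_union_left _ hX), if_pos (mem_inter.2 ⟨hX, hY⟩)]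
        omega
      · rw [if_pos hX, if_neg hY, if_pos (mem_union_left _ hX),
          if_neg (fun h => hY (mem_inter.1 h).2)]
        omega
    · by_cases hY : t ∈ Y
      · rw [if_neg hX, if_pos hY, if_pos (mem_union_right _ hY),
          if_neg (fun h => hX (mem_inter.1 h).1)]
        omega
      · rw [if_neg hX, if_neg hY, if_neg (fun h => (mem_union.1 h).elim hX hY),
          if_neg (fun h => hX (mem_inter.1 h).1)]
        omega

theorem mi_two (hr : RankFn r) (hT : T.card = g + 1) (hTP : r (T ∪ P) = r P + g) (hXY : X ⊆ Y)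
    (h : (if t ∈ X then r (T ∪ X ∩ P) - g else r (X ∩ P)) <
      (if t ∈ X then r (X ∩ P) + 1 else r (X ∩ P))) :
    (if t ∈ Y then r (T ∪ Y ∩ P) - g else r (Y ∩ P)) <
      (if t ∈ Y then r (Y ∩ P) + 1 else r (Y ∩ P)) := by
  by_cases hX : t ∈ X
  · rw [if_pos hX, if_pos hX] at h
    rw [if_pos (hXY hX), if_pos (hXY hX)]
    have b1 := mi_bound hr hT hTP (inter_subset_right : X ∩ P ⊆ P)
    have b2 := mi_bound hr hT hTP (inter_subset_right : Y ∩ P ⊆ P)
    have h1 := hr.submod (T ∪ X ∩ P) (Y ∩ P)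
    have h2 : T ∪ X ∩ P ∪ Y ∩ P = T ∪ Y ∩ P := by
      rw [union_assoc, union_eq_right.2 (inter_subset_inter hXY (Subset.refl P))]
    have h3 : r (X ∩ P) ≤ r ((T ∪ X ∩ P) ∩ (Y ∩ P)) :=
      hr.mono _ _ (subset_inter subset_union_right (inter_subset_inter hXY (Subset.refl P)))
    rw [h2] at h1
    omega
  · rw [if_neg hX, if_neg hX] at h
    exact absurd h (lt_irrefl _)

/-- The one-point extension is a matroid. -/
theorem mi_rk (hr : RankFn r) (ht : t ∉ P) (h1 : T₁.card = g + 1) (h1' : r (T₁ ∪ P) = r P + g)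
    (h2 : T₂.card = g + 1) (h2' : r (T₂ ∪ P) = r P + g) : RankFn (mi r P t T₁ T₂ g) := by
  have key : ∀ T : Finset α, T.card = g + 1 → r (T ∪ P) = r P + g → ∀ X,
      (if t ∈ X then r (T ∪ X ∩ P) - g else r (X ∩ P)) ≤
        (if t ∈ X then r (X ∩ P) + 1 else r (X ∩ P)) ∧
      (if t ∈ X then r (X ∩ P) + 1 else r (X ∩ P)) ≤
        (if t ∈ X then r (T ∪ X ∩ P) - g else r (X ∩ P)) + 1 := by
    intro T hT hTP X
    have b1 := mi_bound hr hT hTP (inter_subset_right : X ∩ P ⊆ P)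
    split_ifs <;> omega
  have := max_quot (mi_one (t := t) hr ht h1 h1') (mi_one (t := t) hr ht h2 h2') (mi_free hr ht)
    (key T₁ h1 h1') (key T₂ h2 h2') (fun X Y hXY => mi_two hr h1 h1' hXY)
    (fun X Y hXY => mi_two hr h2 h2' hXY)
  have he : mi r P t T₁ T₂ g = fun X => max (if t ∈ X then r (T₁ ∪ X ∩ P) - g else r (X ∩ P))
      (if t ∈ X then r (T₂ ∪ X ∩ P) - g else r (X ∩ P)) := by
    funext X
    unfold mi
    split_ifs
    · rfl
    · rw [max_self]
  rw [he]
  exact this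

theorem mi_out (hY : t ∉ Y) : mi r P t T₁ T₂ g Y = r (Y ∩ P) := by
  unfold mi
  rw [if_neg hY]

theorem mi_in (hr : RankFn r) (h1 : T₁.card = g + 1) (h1' : r (T₁ ∪ P) = r P + g)
    (h2 : T₂.card = g + 1) (h2' : r (T₂ ∪ P) = r P + g) (hY : t ∈ Y) :
    mi r P t T₁ T₂ g Y + g = max (r (T₁ ∪ Y ∩ P)) (r (T₂ ∪ Y ∩ P)) := by
  unfold mi
  rw [if_pos hY]
  have b1 := mi_bound hr h1 h1' (inter_subset_right : Y ∩ P ⊆ P)
  have b2 := mi_bound hr h2 h2' (inter_subset_right : Y ∩ P ⊆ P)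
  omega

end inner

end Pool.Agent.SL82
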