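import Pool.Agent.SL82.DlC

/-!
# SL82: colourings of the dual system

* `Tri r E f A B C` : an (ordered) partition of `E` into three bases;
* `Dl.tri` : partitions of `N` give partitions of `N'` (complements of the images), with a prescribed first block;
* `Dl.gd` : a good basis `A` of `N` gives the good basis `E₀ \ A.image π` of `N'`;
* `Dl.twin` : good bases with the same image have the same colour;
* `Dl.colour` : the colouring of `N'` given by an invariant colouring of `N`.
-/

set_option autoImplicit false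

namespace Pool.Agent.SL82

open Finset Pool.Agent.DT3 Pool.Agent.CF98

variable {α : Type*} [DecidableEq α]

/-- An ordered partition of `E` into three bases. -/
structure Tri (r : Finset α → ℕ) (E : Finset α) (f : ℕ) (A B C : Finset α) : Prop where
  un : A ∪ B ∪ C = E
  dab : Disjoint A B
  dac : Disjoint A C
  dbc : Disjoint B C
  ba : Bs r f A
  bb : Bs r f B
  bc : Bs r f C

variable {r r' : Finset α → ℕ} {E E' E₀ A A' B C D X Y Z : Finset α} {f f' : ℕ} {π π' : α → α}
  {x y z e e' : α}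

theorem Tri.swap (h : Tri r E f A B C) : Tri r E f B A C :=
  ⟨by rw [union_comm B A]; exact h.un, h.dab.symm, h.dbc, h.dac, h.bb, h.ba, h.bc⟩

theorem Tri.rot (h : Tri r E f A B C) : Tri r E f B C A :=
  ⟨by rw [union_comm, ← union_assoc]; exact h.un, h.dbc, h.dab.symm, h.dac.symm, h.bb, h.bc, h.ba⟩

theorem Tri.sub (h : Tri r E f A B C) : A ⊆ E := by
  rw [← h.un, union_assoc]
  exact subset_union_left

theorem Tri.compl (h : Tri r E f A B C) : E \ (A ∪ B) = C := by
  rw [← h.un, union_sdiff_cancel_left]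
  exact disjoint_union_left.2 ⟨h.dac, h.dbc⟩

theorem Tri.stp (h : Tri r E f A C B) (h' : Tri r E f A' C D) : Stp r E f A A' :=
  ⟨h.sub, h'.sub, h.ba, h'.ba, C, h.swap.sub, h.dab, h'.dab, h.bb, by
    rw [h.compl]
    exact h.bc, by
    rw [h'.compl]
    exact h'.bc⟩

theorem Tri.sw (h : Tri r E f A B C) : Tri r E f A C B := h.rot.rot.swap

/-- Two blocks of one partition are related. -/
theorem Tri.blocks (h : Tri r E f A B C) : Stp r E f A B := Tri.stp h.sw h.rot

theorem Tri.gd (hE : Env r E f) (h : Tri r E f A B C) : Gd r E f A :=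
  stp_left hE h.blocks

theorem Tri.of (hA : A ⊆ E) (hC : C ⊆ E) (hd : Disjoint A C) (bA : Bs r f A) (bC : Bs r f C)
    (bD : Bs r f (E \ (A ∪ C))) : Tri r E f A C (E \ (A ∪ C)) :=
  ⟨union_sdiff_of_subset (union_subset hA hC), hd,
    disjoint_of_subset_left subset_union_left disjoint_sdiff,
    disjoint_of_subset_left subset_union_right disjoint_sdiff, bA, bC, bD⟩

theorem tri_of_gd (hE : Env r E f) (h : Gd r E f A) : ∃ B C, Tri r E f A B C := by
  obtain ⟨C, hC, hd, bC, bD⟩ := gd_parts hE h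
  exact ⟨C, E \ (A ∪ C), Tri.of h.1 hC hd h.2.1 bC bD⟩

theorem tri_of_stp (h : Stp r E f A A') :
    ∃ C D D', Tri r E f A C D ∧ Tri r E f A' C D' := by
  obtain ⟨hA, hA', bA, bA', C, hC, hd, hd', bC, bD, bD'⟩ := h
  exact ⟨C, E \ (A ∪ C), E \ (A' ∪ C), Tri.of hA hC hd bA bC bD, Tri.of hA' hC hd' bA' bC bD'⟩

theorem Tri.fib (h : Tri r E f A B C) (iA : Set.InjOn π A) (iB : Set.InjOn π B)
    (iC : Set.InjOn π C) (e : α) :
    (if e ∈ A.image π then 1 else 0) + (if e ∈ B.image π then 1 else 0) +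
      (if e ∈ C.image π then 1 else 0) = (E.filter fun x => π x = e).card := by
  rw [← card_fib iA, ← card_fib iB, ← card_fib iC, ← card_union_of_disjoint
    (disjoint_filter_filter h.dab), ← card_union_of_disjoint, ← filter_union, ← filter_union, h.un]
  rw [← filter_union]
  exact disjoint_filter_filter (disjoint_union_left.2 ⟨h.dac, h.dbc⟩)

/-- Partitions of `N` give partitions of `N'`. -/
theorem Dl.tri (D : Dl r E f r' E' f' E₀ π π') (h : Tri r E f A B C) (hA' : A' ⊆ E')
    (iA' : Set.InjOn π' A') (he : A'.image π' = E₀ \ A.image π) :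
    ∃ B' C', Tri r' E' f' A' B' C' ∧ B'.image π' = E₀ \ B.image π ∧
      C'.image π' = E₀ \ C.image π := by
  obtain ⟨iA, bA, sA⟩ := D.bs_img h.sub h.ba
  obtain ⟨iB, bB, sB⟩ := D.bs_img h.swap.sub h.bb
  obtain ⟨iC, bC, sC⟩ := D.bs_img h.rot.rot.sub h.bc
  obtain ⟨B', C', h1, h2, h3, h4, iB', iC', eB', eC'⟩ := lift3 (X := E₀ \ B.image π)
    (Y := E₀ \ C.image π) hA' iA' (by rw [D.im']; exact sdiff_subset)
    (by rw [D.im']; exact sdiff_subset) (by
      intro e he0
      rw [D.im'] at he0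
      have k1 := h.fib iA iB iC e
      have k2 := D.fib e he0
      rw [he]
      simp only [mem_sdiff, he0, true_and]
      by_cases a : e ∈ A.image π <;> by_cases b : e ∈ B.image π <;> by_cases c : e ∈ C.image π <;>
        simp only [a, b, c, if_true, if_false, not_true_eq_false, not_false_eq_true] at k1 ⊢ <;>
        omega)
  refine ⟨B', C', ⟨h1, h2, h3, h4, ?_, ?_, ?_⟩, eB', eC'⟩
  · exact D.symm.bs_of hA' iA' (by rw [he]; exact D.bs sA bA)
  · refine D.symm.bs_of ?_ iB' (by rw [eB']; exact D.bs sB bB)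
    rw [← h1]
    exact subset_union_right.trans subset_union_left
  · refine D.symm.bs_of ?_ iC' (by rw [eC']; exact D.bs sC bC)
    rw [← h1]
    exact subset_union_right

/-- The complement of the image of a good basis of `N` is a good basis of `N'`. -/
theorem Dl.gd (D : Dl r E f r' E' f' E₀ π π') (hE : Env r E f) (hA : Gd r E f A) :
    Gd r' E' f' (E₀ \ A.image π) ∧ (E₀ \ A.image π).image π' = E₀ \ A.image π := by
  obtain ⟨B, C, h⟩ := tri_of_gd hE hA
  have h1 : (E₀ \ A.image π).image π' = E₀ \ A.image π := by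
    ext e
    rw [mem_image]
    constructor
    · rintro ⟨x, hx, rfl⟩
      rw [D.fix' x (mem_sdiff.1 hx).1]
      exact hx
    · intro he
      exact ⟨e, he, D.fix' e (mem_sdiff.1 he).1⟩
  obtain ⟨B', C', h2, -, -⟩ := D.tri h (A' := E₀ \ A.image π) (sdiff_subset.trans D.sub') (by
    intro x hx y hy hxy
    rw [D.fix' x (mem_sdiff.1 (mem_coe.1 hx)).1, D.fix' y (mem_sdiff.1 (mem_coe.1 hy)).1] at hxy
    exact hxy) h1
  exact ⟨h2.gd (D.env hE), h1⟩

/-- Swapping a pair of twins. -/
theorem Dl.swap (D : Dl r E f r' E' f' E₀ π π') (h : Tri r E f A B C) (hx : x ∈ A) (hy : y ∈ B)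
    (hxy : π x = π y) : Tri r E f (insert y (A.erase x)) (insert x (B.erase y)) C := by
  have hxB : x ∉ B := disjoint_left.1 h.dab hx
  have hyA : y ∉ A := disjoint_right.1 h.dab hy
  have hxC : x ∉ C := disjoint_left.1 h.dac hx
  have hyC : y ∉ C := disjoint_left.1 h.dbc hy
  have hne : x ≠ y := fun h => hyA (h ▸ hx)
  have key : ∀ (S : Finset α) (a b : α), a ∈ S → b ∉ S → π a = π b → S ⊆ E → b ∈ E →
      Bs r f S → Bs r f (insert b (S.erase a)) := by
    intro S a b ha hb hab hS hbE hBs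
    have h1 : (insert b (S.erase a)).image π = S.image π := by
      rw [image_insert, ← hab, ← image_insert, insert_erase ha]
    refine ⟨?_, ?_⟩
    · rw [card_insert_of_notMem (fun h => hb (mem_of_mem_erase h)), card_erase_of_mem ha]
      have := card_pos.2 ⟨a, ha⟩
      have := hBs.1
      omega
    · rw [← D.pull _ (insert_subset hbE ((erase_subset _ _).trans hS)), h1, D.pull S hS]
      exact hBs.2
  refine ⟨?_, ?_, ?_, ?_, ?_, ?_, h.bc⟩
  · rw [← h.un]
    ext z
    simp only [mem_union, mem_insert, mem_erase]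
    by_cases h1 : z = x
    · subst h1
      simp [hx]
    · by_cases h2 : z = y
      · subst h2
        simp [hy]
      · tauto
  · rw [disjoint_left]
    intro z hz hz'
    simp only [mem_insert, mem_erase] at hz hz'
    rcases hz with rfl | ⟨h1, h2⟩
    · rcases hz' with h3 | h3
      · exact hne h3.symm
      · exact h3.1 rfl
    · rcases hz' with h3 | h3
      · exact h1 h3
      · exact disjoint_left.1 h.dab h2 h3.2
  · rw [disjoint_insert_left]
    exact ⟨hyC, disjoint_of_subset_left (erase_subset _ _) h.dac⟩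
  · rw [disjoint_insert_left]
    exact ⟨hxC, disjoint_of_subset_left (erase_subset _ _) h.dbc⟩
  · exact key A x y hx hyA hxy h.sub (h.swap.sub hy) h.ba
  · exact key B y x hy hxB hxy.symm h.swap.sub (h.sub hx) h.bb

theorem Dl.twin_step (D : Dl r E f r' E' f' E₀ π π') (hE : Env r E f) (hA : Gd r E f A)
    (hx : x ∈ A) (hyE : y ∈ E) (hyA : y ∉ A) (hxy : π x = π y) :
    Stp r E f A (insert y (A.erase x)) := by
  obtain ⟨B, C, h⟩ := tri_of_gd hE hA
  have h1 : y ∈ B ∨ y ∈ C := by
    rw [← h.un, mem_union, mem_union] at hyE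
    tauto
  rcases h1 with h1 | h1
  · exact Tri.stp h.sw (D.swap h hx h1 hxy).sw
  · exact Tri.stp h (D.swap h.sw hx h1 hxy).sw

/-- Good bases with the same image have the same colour. -/
theorem Dl.twin (D : Dl r E f r' E' f' E₀ π π') (hE : Env r E f) {Q : Finset α → Prop}
    (hQ : ∀ A A', Stp r E f A A' → Q A → Q A') (hB : Gd r E f B) (n : ℕ) :
    ∀ A : Finset α, (A \ B).card = n → Gd r E f A → A.image π = B.image π → Q A → Q B := by
  induction n with
  | zero =>
    intro A hc hA _ hq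
    have h1 : A ⊆ B := sdiff_eq_empty_iff_subset.1 (card_eq_zero.1 hc)
    have h2 : A = B := eq_of_subset_of_card_le h1 (by rw [hA.2.1.1, hB.2.1.1])
    exact h2 ▸ hq
  | succ n ih =>
    intro A hc hA himg hq
    obtain ⟨x, hx⟩ : (A \ B).Nonempty := card_pos.1 (by omega)
    obtain ⟨hxA, hxB⟩ := mem_sdiff.1 hx
    have h1 : π x ∈ B.image π := by
      rw [← himg]
      exact mem_image_of_mem π hxA
    obtain ⟨y, hyB, hyx⟩ := mem_image.1 h1
    have hyA : y ∉ A := by
      intro h
      have := (D.bs_img hA.1 hA.2.1).1 (mem_coe.2 hxA) (mem_coe.2 h) hyx.symm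
      exact hxB (this ▸ hyB)
    have hs := D.twin_step hE hA hxA (hB.1 hyB) hyA hyx.symm
    refine ih (insert y (A.erase x)) ?_ (stp_right hE hs) ?_ (hQ _ _ hs hq)
    · have h2 : insert y (A.erase x) \ B = (A \ B).erase x := by
        ext z
        simp only [mem_sdiff, mem_insert, mem_erase]
        constructor
        · rintro ⟨rfl | h3, h4⟩
          · exact absurd hyB h4
          · exact ⟨h3.1, h3.2, h4⟩
        · rintro ⟨h3, h4, h5⟩
          exact ⟨Or.inr ⟨h3, h4⟩, h5⟩
      rw [h2, card_erase_of_mem hx, hc]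
      rfl
    · rw [← himg, image_insert, hyx, ← image_insert, insert_erase hxA]

/-- The colouring of the dual system. -/
def dq (r : Finset α → ℕ) (E : Finset α) (f : ℕ) (E₀ : Finset α) (π π' : α → α)
    (Q : Finset α → Prop) (A' : Finset α) : Prop :=
  ∃ A, Gd r E f A ∧ Q A ∧ A.image π = E₀ \ A'.image π'

/-- The colouring of the dual system is invariant. -/
theorem Dl.inv (D : Dl r E f r' E' f' E₀ π π') (hE : Env r E f) {Q : Finset α → Prop}
    (hQ : ∀ A A', Stp r E f A A' → Q A → Q A') :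
    ∀ A A', Stp r' E' f' A A' → dq r E f E₀ π π' Q A → dq r E f E₀ π π' Q A' := by
  rintro A' A'' hs ⟨A, hA, hq, he⟩
  obtain ⟨C', D', D'', h1, h2⟩ := tri_of_stp hs
  obtain ⟨C, D₁, h3, h4, _⟩ := D.symm.tri h1 hA.1 (D.bs_img hA.1 hA.2.1).1 he
  have hC : C ⊆ E := h3.swap.sub
  obtain ⟨A₂, D₂, h5, h6, _⟩ := D.symm.tri h2.swap hC (D.bs_img hC h3.bb).1 h4
  exact ⟨A₂, h5.swap.gd hE, hQ _ _ h5.blocks (hQ _ _ h3.blocks hq), h6⟩

/-- Corresponding good bases have the same colour. -/
theorem Dl.col (D : Dl r E f r' E' f' E₀ π π') (hE : Env r E f) {Q : Finset α → Prop}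
    (hQ : ∀ A A', Stp r E f A A' → Q A → Q A') (hA : Gd r E f A)
    (he : A'.image π' = E₀ \ A.image π) : Q A ↔ dq r E f E₀ π π' Q A' := by
  have h0 : E₀ \ A'.image π' = A.image π := by
    rw [he]
    exact Finset.sdiff_sdiff_eq_self (D.bs_img hA.1 hA.2.1).2.2
  constructor
  · intro hq
    exact ⟨A, hA, hq, h0.symm⟩
  · rintro ⟨A₃, h3, hq, he3⟩
    exact D.twin hE hQ hA _ A₃ rfl h3 (he3.trans h0) hq

/-- If all good bases of `N'` have the same colour then so do those of `N`. -/
theorem Dl.white (D : Dl r E f r' E' f' E₀ π π') (hE : Env r E f)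
    (h : ∀ (Q' : Finset α → Prop) (A B : Finset α), (∀ A A', Stp r' E' f' A A' → Q' A → Q' A') →
      Gd r' E' f' A → Gd r' E' f' B → Q' A → Q' B)
    (Q : Finset α → Prop) (A B : Finset α) (hQ : ∀ A A', Stp r E f A A' → Q A → Q A')
    (hA : Gd r E f A) (hB : Gd r E f B) (hq : Q A) : Q B := by
  obtain ⟨h1, h2⟩ := D.gd hE hA
  obtain ⟨h3, h4⟩ := D.gd hE hB
  refine (D.col hE hQ hB h4).2 ?_
  exact h _ _ _ (D.inv hE hQ) h1 h3 ((D.col hE hQ hA h2).1 hq)

end Pool.Agent.SL82
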