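import Pool.Agent.SL82.Np
import Pool.Agent.SL82.DlD
import Pool.Agent.CF98.SplitA

/-!
# SL82: induction on the number of points, for a system and its dual at the same time

* `Wt r E f` : all good bases of the system are in one class;
* `wt_one` : systems of rank at most one;
* `wt_split` : systems which are not strict, by splitting at a tight set;
* `wt_of_min` : the wrapper.  To prove `Wt` for all systems (over an infinite type) it suffices to prove it for a strict
  system `N` with a strict dual `N'`, both of rank at least two and with the same number of points `|E₀|`, all systems with fewer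
  points being white.
-/

set_option autoImplicit false

namespace Pool.Agent.SL82

open Finset Pool.Agent.DT3 Pool.Agent.CF98

variable {α : Type*} [DecidableEq α]

/-- All good bases are in one class. -/
def Wt (r : Finset α → ℕ) (E : Finset α) (f : ℕ) : Prop :=
  ∀ (Q : Finset α → Prop) (A B : Finset α), (∀ A A', Stp r E f A A' → Q A → Q A') →
    Gd r E f A → Gd r E f B → Q A → Q B

variable {r r' : Finset α → ℕ} {E E' E₀ A B C X Y Z P : Finset α}
  {f f' : ℕ} {π π' : α → α} {x y z e e' : α}

theorem Dl.wt (D : Dl r E f r' E' f' E₀ π π') (hE : Env r E f) (h : Wt r' E' f') : Wt r E f :=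
  fun Q A B hQ hA hB hq => D.white hE h Q A B hQ hA hB hq

theorem wt_one (hE : Env r E f) (hf : f ≤ 1) : Wt r E f := by
  intro Q A B hQ hA hB hq
  have hA1 := hA.2.1.1
  have hB1 := hB.2.1.1
  have hcE := hE.card
  rcases Nat.lt_or_ge f 1 with h0 | h1
  · have h2 : A = ∅ := card_eq_zero.1 (by omega)
    have h3 : B = ∅ := card_eq_zero.1 (by omega)
    rw [h3, ← h2]
    exact hq
  · have hf1 : f = 1 := le_antisymm hf h1
    subst hf1
    obtain ⟨a, rfl⟩ := card_eq_one.1 hA1
    obtain ⟨b, rfl⟩ := card_eq_one.1 hB1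
    by_cases hab : a = b
    · rw [← hab]
      exact hq
    · have haE : a ∈ E := hA.1 (mem_singleton_self a)
      have hbE : b ∈ E := hB.1 (mem_singleton_self b)
      have h4 : (E \ ({a} ∪ {b})).card = 1 := by
        rw [card_sdiff_of_subset (union_subset hA.1 hB.1), card_union_of_disjoint
          (disjoint_singleton.2 hab), card_singleton, card_singleton]
        omega
      have h5 : Bs r 1 (E \ ({a} ∪ {b})) := by
        refine ⟨h4, ?_⟩
        obtain ⟨c, hc⟩ := card_eq_one.1 h4
        have hcE : c ∈ E := (mem_sdiff.1 (hc ▸ mem_singleton_self c)).1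
        have h6 := loopless hE hcE
        have h7 := hE.rk.le_card {c}
        rw [card_singleton] at h7
        rw [hc]
        omega
      exact hQ _ _ (Tri.of hA.1 hB.1 (disjoint_singleton.2 hab) hA.2.1 hB.2.1 h5).blocks hq

/-- Systems which are not strict. -/
theorem wt_split (hE : Env r E f) (hs : ¬ Strict r E)
    (ih : ∀ (r₁ : Finset α → ℕ) (E₁ : Finset α) (f₁ : ℕ), Env r₁ E₁ f₁ → np r₁ E₁ < np r E →
      Wt r₁ E₁ f₁) : Wt r E f := by
  unfold Strict at hs
  push Not at hs
  obtain ⟨X, hX, hne, hXE, hlt⟩ := hs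
  have hr := hE.rk
  have ht : X.card = 3 * r X := by
    have := hE.three X hX
    omega
  have hfl : ∀ x ∈ E, r (insert x X) = r X → x ∈ X := by
    intro x hx h
    by_contra hn
    have h1 := hE.three (insert x X) (insert_subset hx hX)
    rw [card_insert_of_notMem hn, h] at h1
    omega
  have h1 := np_split hE hX hfl
  have h2 : 0 < (X.image (cls r E)).card := card_pos.2 (hne.image _)
  have h3 : 0 < ((E \ X).image (cls r E)).card := by
    apply card_pos.2
    apply Nonempty.image
    rw [sdiff_nonempty]
    intro h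
    exact hXE (Subset.antisymm hX h)
  have w1 : Wt r X (r X) := by
    have hE1 := env_res hE hX ht
    refine ih r X (r X) hE1 ?_
    have h4 := np_le hE1.rk (fun e he => loopless hE1 he) (cls r E)
      (fun e he x hx h => cls_rk hE (hX hx) h)
    omega
  have w2 : Wt (fun Y => r (Y ∪ X) - r X) (E \ X) (f - r X) := by
    have hE2 := env_con hE hX ht
    refine ih _ (E \ X) (f - r X) hE2 ?_
    have h4 := np_le hE2.rk (fun e he => loopless hE2 he) (cls r E) (by
      intro e he x hx h
      have h5 := cls_rk hE (mem_sdiff.1 hx).1 h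
      have h6 := rk_le_add hr {e, x} X
      show r ({e, x} ∪ X) - r X ≤ 1
      omega)
    omega
  intro Q A B hQ hA hB hQA
  have hA1 := gd_res hE hX ht hA
  have hA2 := gd_con hE hX ht hA
  have hB1 := gd_res hE hX ht hB
  have hB2 := gd_con hE hX ht hB
  have hAu : A ∩ X ∪ A \ X = A := by
    rw [union_comm]
    exact sdiff_union_inter A X
  have hBu : B ∩ X ∪ B \ X = B := by
    rw [union_comm]
    exact sdiff_union_inter B X
  have q1 : Q (B ∩ X ∪ A \ X) := by
    refine w1 (fun S => Q (S ∪ A \ X)) (A ∩ X) (B ∩ X) ?_ hA1 hB1 ?_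
    · intro S S' hS hq
      exact hQ _ _ (stp_glue_left hE hX ht hS hA2) hq
    · show Q (A ∩ X ∪ A \ X)
      rw [hAu]
      exact hQA
  have q2 : Q (B ∩ X ∪ B \ X) := by
    refine w2 (fun S => Q (B ∩ X ∪ S)) (A \ X) (B \ X) ?_ hA2 hB2 q1
    intro S S' hS hq
    exact hQ _ _ (stp_glue_right hE hX ht hB1 hS) hq
  rw [hBu] at q2
  exact q2

/-- The induction on the number of points. -/
theorem wt_of_min [Infinite α]
    (H : ∀ (r : Finset α → ℕ) (E : Finset α) (f : ℕ) (r' : Finset α → ℕ) (E' : Finset α) (f' : ℕ)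
      (E₀ : Finset α) (π π' : α → α),
      (∀ (r₁ : Finset α → ℕ) (E₁ : Finset α) (f₁ : ℕ), Env r₁ E₁ f₁ → np r₁ E₁ < E₀.card →
        Wt r₁ E₁ f₁) →
      Env r E f → Strict r E → 2 ≤ f → np r E = E₀.card →
      Env r' E' f' → Strict r' E' → 2 ≤ f' → np r' E' = E₀.card →
      Dl r E f r' E' f' E₀ π π' → Wt r E f) (n : ℕ) :
    ∀ (r : Finset α → ℕ) (E : Finset α) (f : ℕ), Env r E f → np r E = n → Wt r E f := by
  induction n using Nat.strong_induction_on with
  | h n ih =>
    intro r E f hE hn
    by_cases hs : Strict r E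
    · rcases Nat.lt_or_ge f 2 with h1 | h2
      · exact wt_one hE (by omega)
      · obtain ⟨r', E', f', E₀, π, π', D, hE₀⟩ := exists_dl hE hs h2
        have hE' := D.env hE
        have hS' := D.strict hE hs
        rcases Nat.lt_or_ge f' 2 with h3 | h3
        · exact D.wt hE (wt_one hE' (by omega))
        · rcases Nat.lt_or_ge (np r' E') E₀.card with h4 | h4
          · exact D.wt hE (ih (np r' E') (by omega) r' E' f' hE' rfl)
          · have h5 := D.np_le hE
            refine H r E f r' E' f' E₀ π π' ?_ hE hs h2 hE₀ hE' hS' h3 (le_antisymm h5 h4) D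
            intro r₁ E₁ f₁ hE₁ hlt
            exact ih (np r₁ E₁) (by omega) r₁ E₁ f₁ hE₁ rfl
    · exact wt_split hE hs (fun r₁ E₁ f₁ hE₁ hlt => ih (np r₁ E₁) (by omega) r₁ E₁ f₁ hE₁ rfl)

end Pool.Agent.SL82
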