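import Pool.Agent.CF98.Good

/-!
# SL82: the dual system of three blocks (MP_e6151a_ag, White(3); duality of helpers 58 and 21)

`N = (E, r, f)` is a system of three blocks whose parallel classes have one or two elements; `E₀` is a set of
representatives.  The dual system `N' = (E', r', f')` has the same points `E₀`, with the dual matroid of `r | E₀`, and a
point is double in `N'` if and only if it is simple in `N`.

* `Dl` : the relation between `N` and `N'`;
* `Dl.symm`, `Dl.add`, `Dl.bs`, `Dl.bs_img`, `Dl.bs_of`;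
* `sec`, `lift3` : lifting triples of sets of points.
-/

set_option autoImplicit false

namespace Pool.Agent.SL82

open Finset Pool.Agent.DT3 Pool.Agent.CF98

variable {α : Type*} [DecidableEq α]

/-- `(E, r, f)` and `(E', r', f')` are dual systems with the common set of points `E₀`. -/
structure Dl (r : Finset α → ℕ) (E : Finset α) (f : ℕ) (r' : Finset α → ℕ) (E' : Finset α) (f' : ℕ)
    (E₀ : Finset α) (π π' : α → α) : Prop where
  rk : RankFn r
  rk' : RankFn r'
  im : E.image π = E₀
  im' : E'.image π' = E₀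
  sub : E₀ ⊆ E
  sub' : E₀ ⊆ E'
  fix : ∀ e ∈ E₀, π e = e
  fix' : ∀ e ∈ E₀, π' e = e
  pull : ∀ X ⊆ E, r (X.image π) = r X
  pull' : ∀ X ⊆ E', r' (X.image π') = r' X
  full : r E₀ = f
  full' : r' E₀ = f'
  dual : ∀ Y ⊆ E₀, r' Y + f = Y.card + r (E₀ \ Y)
  fib : ∀ e ∈ E₀, (E.filter fun x => π x = e).card + (E'.filter fun x => π' x = e).card = 3

variable {r r' : Finset α → ℕ} {E E' E₀ A B C X Y : Finset α} {f f' : ℕ} {π π' : α → α}

theorem Dl.add (D : Dl r E f r' E' f' E₀ π π') : f + f' = E₀.card := by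
  have h := D.dual E₀ (Subset.refl _)
  rw [sdiff_self, D.full'] at h
  have h0 := D.rk.empty
  change f' + f = E₀.card + r ∅ at h
  omega

theorem Dl.symm (D : Dl r E f r' E' f' E₀ π π') : Dl r' E' f' r E f E₀ π' π where
  rk := D.rk'
  rk' := D.rk
  im := D.im'
  im' := D.im
  sub := D.sub'
  sub' := D.sub
  fix := D.fix'
  fix' := D.fix
  pull := D.pull'
  pull' := D.pull
  full := D.full'
  full' := D.full
  dual := by
    intro Y hY
    have h1 := D.dual (E₀ \ Y) sdiff_subset
    rw [Finset.sdiff_sdiff_eq_self hY] at h1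
    have h2 := card_sdiff_add_card_eq_card hY
    have h3 := D.add
    omega
  fib := by
    intro e he
    have := D.fib e he
    omega

theorem Dl.bs (D : Dl r E f r' E' f' E₀ π π') (hY : Y ⊆ E₀) (h : Bs r f Y) :
    Bs r' f' (E₀ \ Y) := by
  have h1 := D.dual (E₀ \ Y) sdiff_subset
  rw [Finset.sdiff_sdiff_eq_self hY] at h1
  have h2 := card_sdiff_add_card_eq_card hY
  have h3 := D.add
  have h4 := h.1
  have h5 := h.2
  constructor <;> omega

/-- The image of a basis is a basis, and the projection is injective on it. -/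
theorem Dl.bs_img (D : Dl r E f r' E' f' E₀ π π') (hA : A ⊆ E) (h : Bs r f A) :
    Set.InjOn π A ∧ Bs r f (A.image π) ∧ A.image π ⊆ E₀ := by
  have h1 := D.pull A hA
  have h2 := D.rk.le_card (A.image π)
  have h3 : (A.image π).card ≤ A.card := card_image_le
  have h4 := h.1
  have h5 := h.2
  refine ⟨?_, ⟨by omega, by omega⟩, ?_⟩
  · apply card_image_iff.1
    omega
  · rw [← D.im]
    exact image_subset_image hA

theorem Dl.bs_of (D : Dl r E f r' E' f' E₀ π π') (hA : A ⊆ E) (hi : Set.InjOn π A)
    (h : Bs r f (A.image π)) : Bs r f A := by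
  refine ⟨?_, ?_⟩
  · rw [← card_image_iff.2 hi]
    exact h.1
  · rw [← D.pull A hA]
    exact h.2

/-- Sections. -/
theorem sec (E : Finset α) (π : α → α) (X : Finset α) (h : ∀ e ∈ X, ∃ x ∈ E, π x = e) :
    ∃ A ⊆ E, Set.InjOn π A ∧ A.image π = X := by
  have h1 : Set.SurjOn π (E : Set α) (X : Set α) := by
    intro e he
    obtain ⟨x, hx, hxe⟩ := h e (mem_coe.1 he)
    exact ⟨x, mem_coe.2 hx, hxe⟩
  obtain ⟨A, hA, hi, he⟩ := h1.exists_subset_injOn_image_eq
  have hfin : A.Finite := E.finite_toSet.subset hA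
  refine ⟨hfin.toFinset, ?_, ?_, ?_⟩
  · intro x hx
    exact mem_coe.1 (hA (hfin.mem_toFinset.1 hx))
  · rw [hfin.coe_toFinset]
    exact hi
  · ext e
    simp only [mem_image, Set.Finite.mem_toFinset]
    have : e ∈ π '' A ↔ e ∈ (X : Set α) := by rw [he]
    rw [mem_coe] at this
    exact this

theorem card_fib {A : Finset α} (hi : Set.InjOn π A) (e : α) :
    (A.filter fun x => π x = e).card = if e ∈ A.image π then 1 else 0 := by
  split_ifs with h
  · obtain ⟨x, hx, hxe⟩ := mem_image.1 h
    rw [card_eq_one]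
    refine ⟨x, ?_⟩
    ext y
    rw [mem_filter, mem_singleton]
    constructor
    · rintro ⟨hy, hye⟩
      exact hi (mem_coe.2 hy) (mem_coe.2 hx) (hye.trans hxe.symm)
    · rintro rfl
      exact ⟨hx, hxe⟩
  · rw [card_eq_zero, filter_eq_empty_iff]
    intro x hx hxe
    exact h (mem_image.2 ⟨x, hx, hxe⟩)

theorem fib_sdiff {A : Finset α} (hA : A ⊆ E) (hi : Set.InjOn π A) (e : α) :
    ((E \ A).filter fun x => π x = e).card + (if e ∈ A.image π then 1 else 0) =
      (E.filter fun x => π x = e).card := by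
  rw [← card_fib hi e, ← card_union_of_disjoint, ← filter_union, sdiff_union_of_subset hA]
  exact disjoint_filter_filter sdiff_disjoint

/-- Lifting a triple with a prescribed first block. -/
theorem lift3 (hA : A ⊆ E) (hi : Set.InjOn π A) (hX : X ⊆ E.image π) (hY : Y ⊆ E.image π)
    (h : ∀ e ∈ E.image π, (if e ∈ A.image π then 1 else 0) + (if e ∈ X then 1 else 0) +
      (if e ∈ Y then 1 else 0) = (E.filter fun x => π x = e).card) :
    ∃ B C, A ∪ B ∪ C = E ∧ Disjoint A B ∧ Disjoint A C ∧ Disjoint B C ∧ Set.InjOn π B ∧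
      Set.InjOn π C ∧ B.image π = X ∧ C.image π = Y := by
  obtain ⟨B, hB, hBi, hBX⟩ := sec (E \ A) π X (by
    intro e he
    have h1 := h e (hX he)
    have h2 := fib_sdiff hA hi e
    rw [if_pos he] at h1
    have h3 : 0 < ((E \ A).filter fun x => π x = e).card := by omega
    obtain ⟨x, hx⟩ := card_pos.1 h3
    exact ⟨x, (mem_filter.1 hx).1, (mem_filter.1 hx).2⟩)
  obtain ⟨C, hC, hCi, hCY⟩ := sec ((E \ A) \ B) π Y (by
    intro e he
    have h1 := h e (hY he)
    have h2 := fib_sdiff hA hi e
    have h4 := fib_sdiff hB hBi e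
    rw [if_pos he] at h1
    rw [hBX] at h4
    have h3 : 0 < (((E \ A) \ B).filter fun x => π x = e).card := by omega
    obtain ⟨x, hx⟩ := card_pos.1 h3
    exact ⟨x, (mem_filter.1 hx).1, (mem_filter.1 hx).2⟩)
  refine ⟨B, C, ?_, ?_, ?_, ?_, hBi, hCi, hBX, hCY⟩
  · apply Subset.antisymm
    · apply union_subset (union_subset hA (hB.trans sdiff_subset))
      exact hC.trans (sdiff_subset.trans sdiff_subset)
    · intro x hx
      by_contra hn
      rw [mem_union, mem_union] at hn
      push Not at hn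
      obtain ⟨⟨n1, n2⟩, n3⟩ := hn
      have h2 := fib_sdiff hA hi (π x)
      have h4 := fib_sdiff hB hBi (π x)
      have h5 := fib_sdiff hC hCi (π x)
      rw [hBX] at h4
      rw [hCY] at h5
      have h1 := h (π x) (mem_image_of_mem π hx)
      have h6 : 0 < ((((E \ A) \ B) \ C).filter fun y => π y = π x).card := by
        apply card_pos.2
        refine ⟨x, mem_filter.2 ⟨?_, rfl⟩⟩
        simp only [mem_sdiff]
        exact ⟨⟨⟨hx, n1⟩, n2⟩, n3⟩
      omega
  · exact disjoint_of_subset_right hB disjoint_sdiff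
  · exact disjoint_of_subset_right (hC.trans sdiff_subset) disjoint_sdiff
  · exact disjoint_of_subset_right hC disjoint_sdiff

end Pool.Agent.SL82
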