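import Pool.Agent.SL82.DlA

/-!
# SL82: the dual system is again strict

* `fb π E Y` : the elements of `E` over `Y`;
* `Dl.fb_card` : `|fb π E Y| + |fb π' E' Y| = 3 |Y|`;
* `Dl.slack` : the slack of `Y` in `N` is the slack of `E₀ \ Y` in `N'`;
* `Dl.env`, `Dl.strict` : the dual system is a (strict) system of three blocks.
-/

set_option autoImplicit false

namespace Pool.Agent.SL82

open Finset Pool.Agent.DT3 Pool.Agent.CF98

variable {α : Type*} [DecidableEq α]

/-- The elements of `E` over `Y`. -/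
def fb (π : α → α) (E Y : Finset α) : Finset α := E.filter fun x => π x ∈ Y

variable {r r' : Finset α → ℕ} {E E' E₀ A B C X Y Z : Finset α} {f f' : ℕ} {π π' : α → α}

theorem fb_sub : fb π E Y ⊆ E := filter_subset _ _

theorem mem_fb {x : α} : x ∈ fb π E Y ↔ x ∈ E ∧ π x ∈ Y := mem_filter

theorem fb_sum : (fb π E Y).card = ∑ e ∈ Y, (E.filter fun x => π x = e).card := by
  rw [card_eq_sum_card_fiberwise (f := π) (t := Y) (fun x hx => by
    have := mem_coe.1 hx
    exact mem_coe.2 (mem_fb.1 this).2)]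
  apply sum_congr rfl
  intro e he
  congr 1
  ext x
  simp only [mem_filter, mem_fb]
  constructor
  · rintro ⟨⟨h1, _⟩, h2⟩
    exact ⟨h1, h2⟩
  · rintro ⟨h1, h2⟩
    exact ⟨⟨h1, h2 ▸ he⟩, h2⟩

theorem Dl.fb_card (D : Dl r E f r' E' f' E₀ π π') (hY : Y ⊆ E₀) :
    (fb π E Y).card + (fb π' E' Y).card = 3 * Y.card := by
  rw [fb_sum, fb_sum, ← sum_add_distrib, sum_congr rfl (fun e he => D.fib e (hY he)), sum_const,
    smul_eq_mul, mul_comm]

theorem Dl.fb_img (D : Dl r E f r' E' f' E₀ π π') (hY : Y ⊆ E₀) : (fb π E Y).image π = Y := by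
  ext e
  rw [mem_image]
  constructor
  · rintro ⟨x, hx, rfl⟩
    exact (mem_fb.1 hx).2
  · intro he
    refine ⟨e, mem_fb.2 ⟨D.sub (hY he), ?_⟩, D.fix e (hY he)⟩
    rw [D.fix e (hY he)]
    exact he

theorem Dl.fb_rk (D : Dl r E f r' E' f' E₀ π π') (hY : Y ⊆ E₀) : r (fb π E Y) = r Y := by
  rw [← D.pull _ fb_sub, D.fb_img hY]

theorem Dl.fb_compl (D : Dl r E f r' E' f' E₀ π π') :
    (fb π E Y).card + (fb π E (E₀ \ Y)).card = E.card := by
  rw [← card_union_of_disjoint]
  · congr 1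
    ext x
    simp only [mem_union, mem_fb, mem_sdiff]
    constructor
    · rintro (h | h)
      · exact h.1
      · exact h.1
    · intro h
      have h1 : π x ∈ E₀ := D.im ▸ mem_image_of_mem π h
      by_cases h2 : π x ∈ Y
      · exact Or.inl ⟨h, h2⟩
      · exact Or.inr ⟨h, h1, h2⟩
  · rw [disjoint_left]
    intro x h1 h2
    exact (mem_sdiff.1 (mem_fb.1 h2).2).2 (mem_fb.1 h1).2

theorem Dl.all (D : Dl r E f r' E' f' E₀ π π') : fb π E E₀ = E := by
  ext x
  rw [mem_fb]
  constructor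
  · exact fun h => h.1
  · exact fun h => ⟨h, D.im ▸ mem_image_of_mem π h⟩

theorem Dl.le_fb (D : Dl r E f r' E' f' E₀ π π') (hX : X ⊆ E) :
    X ⊆ fb π E (X.image π) ∧ X.image π ⊆ E₀ ∧ r (X.image π) = r X := by
  refine ⟨?_, ?_, D.pull X hX⟩
  · intro x hx
    exact mem_fb.2 ⟨hX hx, mem_image_of_mem π hx⟩
  · rw [← D.im]
    exact image_subset_image hX

/-- The slack of `Y` in `N` is the slack of `E₀ \ Y` in `N'`. -/
theorem Dl.slack (D : Dl r E f r' E' f' E₀ π π') (hc : E.card = 3 * f) (hY : Y ⊆ E₀) :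
    3 * r Y + (fb π' E' (E₀ \ Y)).card = 3 * r' (E₀ \ Y) + (fb π E Y).card := by
  have h1 := D.fb_card (Y := E₀ \ Y) sdiff_subset
  have h2 := D.fb_compl (Y := Y)
  have h3 := D.dual (E₀ \ Y) sdiff_subset
  rw [Finset.sdiff_sdiff_eq_self hY] at h3
  omega

theorem Dl.card' (D : Dl r E f r' E' f' E₀ π π') (hc : E.card = 3 * f) : E'.card = 3 * f' := by
  have h1 := D.fb_card (Subset.refl _)
  rw [D.all, D.symm.all] at h1
  have h2 := D.add
  omega

theorem Dl.full_E (D : Dl r E f r' E' f' E₀ π π') : r E = f := by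
  rw [← D.pull E (Subset.refl _), D.im, D.full]

theorem Dl.env (D : Dl r E f r' E' f' E₀ π π') (hE : Env r E f) : Env r' E' f' where
  rk := D.rk'
  card := D.card' hE.card
  rank := D.symm.full_E
  three := by
    intro X hX
    obtain ⟨h1, h2, h3⟩ := D.symm.le_fb hX
    have h4 := card_le_card h1
    have h5 := D.slack hE.card (Y := E₀ \ X.image π') sdiff_subset
    rw [Finset.sdiff_sdiff_eq_self h2] at h5
    have h6 := hE.three (fb π E (E₀ \ X.image π')) fb_sub
    rw [D.fb_rk sdiff_subset] at h6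
    omega

theorem Dl.strict (D : Dl r E f r' E' f' E₀ π π') (hE : Env r E f) (hS : Strict r E) :
    Strict r' E' := by
  intro X hX hne hXE
  obtain ⟨h1, h2, h3⟩ := D.symm.le_fb hX
  have h4 := card_le_card h1
  have h5 := D.slack hE.card (Y := E₀ \ X.image π') sdiff_subset
  rw [Finset.sdiff_sdiff_eq_self h2] at h5
  by_cases h0 : (fb π E (E₀ \ X.image π')).Nonempty
  · by_cases hall : fb π E (E₀ \ X.image π') = E
    · exfalso
      obtain ⟨x, hx⟩ := hne
      have h6 : π' x ∈ X.image π' := mem_image_of_mem π' hx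
      have h7 : π' x ∈ E := D.sub (h2 h6)
      rw [← hall] at h7
      have h8 := (mem_fb.1 h7).2
      rw [D.fix _ (h2 h6)] at h8
      exact (mem_sdiff.1 h8).2 h6
    · have h6 := hS (fb π E (E₀ \ X.image π')) fb_sub h0 hall
      rw [D.fb_rk sdiff_subset] at h6
      omega
  · rw [not_nonempty_iff_eq_empty] at h0
    have h7 : X.image π' = E₀ := by
      apply Subset.antisymm h2
      intro e he
      by_contra hn
      have : e ∈ fb π E (E₀ \ X.image π') := by
        refine mem_fb.2 ⟨D.sub he, ?_⟩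
        rw [D.fix e he]
        exact mem_sdiff.2 ⟨he, hn⟩
      rw [h0] at this
      exact notMem_empty e this
    have h8 := card_lt_card (hX.ssubset_of_ne hXE)
    have h9 := D.card' hE.card
    have h10 := D.full'
    rw [h7] at h3
    omega

end Pool.Agent.SL82
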