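import Pool.Agent.SL82.DlB

/-!
# SL82: existence of the dual system

* `cls r E e` : the parallel class of `e`;
* `exists_rep` : representatives of the parallel classes;
* `exists_dl` : every strict system of three blocks of rank at least two has a dual system (the type is infinite).
-/

set_option autoImplicit false

namespace Pool.Agent.SL82

open Finset Pool.Agent.DT3 Pool.Agent.CF98

variable {α : Type*} [DecidableEq α]

/-- The parallel class of `e`. -/
def cls (r : Finset α → ℕ) (E : Finset α) (e : α) : Finset α := E.filter fun x => r {e, x} = 1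

/-- The number of points. -/
def np (r : Finset α → ℕ) (E : Finset α) : ℕ := (E.image (cls r E)).card

variable {r r' : Finset α → ℕ} {E E' E₀ A B C X Y Z : Finset α} {f f' : ℕ} {π π' : α → α}
  {x y z e : α}

theorem mem_cls : x ∈ cls r E e ↔ x ∈ E ∧ r {e, x} = 1 := mem_filter

theorem par_trans (hr : RankFn r) (hy : 0 < r {y}) (h1 : r {x, y} = 1) (h2 : r {y, z} = 1) :
    r {x, z} ≤ 1 := by
  have h3 := hr.submod {x, y} {y, z}
  have h4 : r {y} ≤ r ({x, y} ∩ {y, z}) := by
    apply hr.mono
    intro a ha
    rw [mem_singleton] at ha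
    subst ha
    simp
  have h5 : r {x, z} ≤ r ({x, y} ∪ {y, z}) := by
    apply hr.mono
    intro a ha
    simp only [mem_insert, mem_singleton, mem_union] at ha ⊢
    tauto
  omega

theorem par_comm : r {x, y} = r {y, x} := by
  rw [pair_comm]

/-- Representatives of the parallel classes. -/
theorem exists_rep (hr : RankFn r) (hl : ∀ e ∈ E, 0 < r {e}) :
    ∃ π : α → α, (∀ e ∈ E, π e ∈ E ∧ r {e, π e} = 1) ∧
      ∀ e ∈ E, ∀ x ∈ E, (π e = π x ↔ r {e, x} = 1) := by
  classical
  have hs : ∀ e ∈ E, r {e} = 1 := by
    intro e he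
    have h1 := hl e he
    have h2 := hr.le_card {e}
    rw [card_singleton] at h2
    omega
  have hself : ∀ e ∈ E, e ∈ cls r E e := by
    intro e he
    rw [mem_cls]
    refine ⟨he, ?_⟩
    rw [pair_eq_singleton]
    exact hs e he
  have hle : ∀ e ∈ E, ∀ x, r {e, x} ≤ 1 → r {e, x} = 1 := by
    intro e he x h
    have h1 := hr.mono {e} {e, x} (by simp)
    have h2 := hs e he
    omega
  have hcls : ∀ e ∈ E, ∀ x ∈ E, r {e, x} = 1 → cls r E e = cls r E x := by
    intro e he x hx hex
    ext y
    rw [mem_cls, mem_cls]
    constructor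
    · rintro ⟨hy, h1⟩
      refine ⟨hy, hle x hx y ?_⟩
      exact par_trans hr (hl e he) (par_comm.trans hex) h1
    · rintro ⟨hy, h1⟩
      exact ⟨hy, hle e he y (par_trans hr (hl x hx) hex h1)⟩
  let π : α → α := fun e => if h : (cls r E e).Nonempty then h.choose else e
  have hπ : ∀ e ∈ E, π e ∈ cls r E e := by
    intro e he
    have h : (cls r E e).Nonempty := ⟨e, hself e he⟩
    have : π e = h.choose := dif_pos h
    rw [this]
    exact h.choose_spec
  refine ⟨π, fun e he => mem_cls.1 (hπ e he), ?_⟩
  intro e he x hx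
  constructor
  · intro h
    have h1 := mem_cls.1 (hπ e he)
    have h2 := mem_cls.1 (hπ x hx)
    rw [← h] at h2
    exact hle e he x (par_trans hr (hl _ h1.1) h1.2 (par_comm.trans h2.2))
  · intro h
    have h1 := hcls e he x hx h
    show (if h : (cls r E e).Nonempty then h.choose else e) =
      (if h : (cls r E x).Nonempty then h.choose else x)
    have h2 : (cls r E e).Nonempty := ⟨e, hself e he⟩
    have h3 : (cls r E x).Nonempty := ⟨x, hself x hx⟩
    rw [dif_pos h2, dif_pos h3]
    congr 1
    rw [h1]

theorem pull_of (hr : RankFn r) (hl : ∀ e ∈ E, 0 < r {e}) (hπ : ∀ e ∈ E, π e ∈ E ∧ r {e, π e} = 1)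
    (hX : X ⊆ E) : r (X.image π) = r X := by
  have hs : ∀ e ∈ E, r {e} = 1 := by
    intro e he
    have h1 := hl e he
    have h2 := hr.le_card {e}
    rw [card_singleton] at h2
    omega
  have h1 : r (X ∪ X.image π) = r X := by
    apply rk_union_eq hr
    intro y hy
    obtain ⟨x, hx, rfl⟩ := mem_image.1 hy
    apply hr.mono_insert (X := {x}) _ (singleton_subset_iff.2 hx)
    rw [hs x (hX hx), show insert (π x) {x} = ({x, π x} : Finset α) from pair_comm _ _]
    exact (hπ x (hX hx)).2
  have h2 : r (X.image π ∪ X) = r (X.image π) := by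
    apply rk_union_eq hr
    intro x hx
    apply hr.mono_insert (X := {π x}) _ (singleton_subset_iff.2 (mem_image_of_mem π hx))
    rw [hs (π x) (hπ x (hX hx)).1]
    exact (hπ x (hX hx)).2
  rw [← h1, ← h2, union_comm]

/-- Every strict system of rank at least two has a dual system. -/
theorem exists_dl [Infinite α] (hE : Env r E f) (hS : Strict r E) (hf : 2 ≤ f) :
    ∃ (r' : Finset α → ℕ) (E' : Finset α) (f' : ℕ) (E₀ : Finset α) (π π' : α → α),
      Dl r E f r' E' f' E₀ π π' ∧ np r E = E₀.card := by
  classical
  have hr := hE.rk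
  have hl : ∀ e ∈ E, 0 < r {e} := by
    intro e he
    have h1 := hS {e} (singleton_subset_iff.2 he) (singleton_nonempty e) (by
      intro h
      have := hE.card
      rw [← h, card_singleton] at this
      omega)
    rw [card_singleton] at h1
    omega
  obtain ⟨π, hπ, hπ2⟩ := exists_rep hr hl
  have hs : ∀ e ∈ E, r {e, e} = 1 := by
    intro e he
    have h1 := hl e he
    have h2 := hr.le_card {e}
    rw [card_singleton] at h2
    rw [pair_eq_singleton]
    omega
  set E₀ := E.image π with hE₀
  have hsub : E₀ ⊆ E := by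
    intro e he
    obtain ⟨x, hx, rfl⟩ := mem_image.1 he
    exact (hπ x hx).1
  have hfix : ∀ e ∈ E₀, π e = e := by
    intro e he
    obtain ⟨x, hx, rfl⟩ := mem_image.1 he
    exact ((hπ2 x hx (π x) (hπ x hx).1).2 (hπ x hx).2).symm
  have hpull : ∀ X ⊆ E, r (X.image π) = r X := fun X hX => pull_of hr hl hπ hX
  have hfull : r E₀ = f := by
    rw [hE₀, hpull E (Subset.refl _), hE.rank]
  -- the fibres
  have hfib : ∀ e ∈ E₀, (E.filter fun x => π x = e).card = 1 ∨
      (E.filter fun x => π x = e).card = 2 := by
    intro e he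
    have hne : e ∈ E.filter fun x => π x = e := mem_filter.2 ⟨hsub he, hfix e he⟩
    have h0 : 0 < (E.filter fun x => π x = e).card := card_pos.2 ⟨e, hne⟩
    have h1 : r (E.filter fun x => π x = e) ≤ 1 := by
      rw [← hpull _ (filter_subset _ _)]
      have h2 : (E.filter fun x => π x = e).image π ⊆ {e} := by
        intro y hy
        obtain ⟨x, hx, rfl⟩ := mem_image.1 hy
        exact mem_singleton.2 (mem_filter.1 hx).2
      have h3 := hr.mono _ _ h2
      have h4 := hr.le_card {e}
      rw [card_singleton] at h4
      omega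
    have h5 := hS (E.filter fun x => π x = e) (filter_subset _ _) ⟨e, hne⟩ (by
      intro h
      have := hE.rank
      rw [h] at h1
      omega)
    omega
  set L := E₀.filter fun e => (E.filter fun x => π x = e).card = 1 with hL
  obtain ⟨D, hD, hDc⟩ := (E.finite_toSet.infinite_compl).exists_subset_card_eq L.card
  have hDE : ∀ x ∈ D, x ∉ E := by
    intro x hx hxE
    exact hD (mem_coe.2 hx) (mem_coe.2 hxE)
  let σ := Finset.equivOfCardEq hDc
  let π' : α → α := fun x => if h : x ∈ D then (σ ⟨x, h⟩ : α) else x
  have hπD : ∀ x (h : x ∈ D), π' x = (σ ⟨x, h⟩ : α) := fun x h => dif_pos h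
  have hπn : ∀ x, x ∉ D → π' x = x := fun x h => dif_neg h
  have hE₀D : ∀ e ∈ E₀, e ∉ D := fun e he h => hDE e h (hsub he)
  have hfix' : ∀ e ∈ E₀, π' e = e := fun e he => hπn e (hE₀D e he)
  have hLD : ∀ x (h : x ∈ D), π' x ∈ L := fun x h => by
    rw [hπD x h]
    exact (σ ⟨x, h⟩).2
  have hLE : L ⊆ E₀ := filter_subset _ _
  have him' : (E₀ ∪ D).image π' = E₀ := by
    ext e
    rw [mem_image]
    constructor
    · rintro ⟨x, hx, rfl⟩
      rcases mem_union.1 hx with h | h
      · rw [hfix' x h]
        exact h
      · exact hLE (hLD x h)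
    · intro he
      exact ⟨e, mem_union_left _ he, hfix' e he⟩
  let r' : Finset α → ℕ := fun X => (X.image π' ∩ E₀).card + r (E₀ \ X.image π') - r E₀
  have hr' : RankFn r' := rk_img (rk_dual hr E₀) π'
  have hid : ∀ Y ⊆ E₀, Y.image π' = Y := by
    intro Y hY
    ext e
    rw [mem_image]
    constructor
    · rintro ⟨x, hx, rfl⟩
      rw [hfix' x (hY hx)]
      exact hx
    · intro he
      exact ⟨e, he, hfix' e (hY he)⟩
  refine ⟨r', E₀ ∪ D, r' E₀, E₀, π, π', ?_, ?_⟩
  · refine ⟨hr, hr', hE₀.symm, him', hsub, subset_union_left, hfix, hfix', hpull, ?_, hfull, rfl,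
      ?_, ?_⟩
    · intro X hX
      have h1 : X.image π' ⊆ E₀ := by
        rw [← him']
        exact image_subset_image hX
      show ((X.image π').image π' ∩ E₀).card + r (E₀ \ (X.image π').image π') - r E₀ =
        (X.image π' ∩ E₀).card + r (E₀ \ X.image π') - r E₀
      rw [hid _ h1]
    · intro Y hY
      show (Y.image π' ∩ E₀).card + r (E₀ \ Y.image π') - r E₀ + f = Y.card + r (E₀ \ Y)
      rw [hid Y hY, inter_eq_left.2 hY, hfull]
      have h1 := rk_le_union_card hr (E₀ \ Y) Y
      rw [sdiff_union_of_subset hY, hfull] at h1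
      omega
    · intro e he
      have h1 : ((E₀ ∪ D).filter fun x => π' x = e).card =
          1 + if e ∈ L then 1 else 0 := by
        have h2 : (E₀ ∪ D).filter (fun x => π' x = e) = {e} ∪ D.filter fun x => π' x = e := by
          ext x
          simp only [mem_filter, mem_union, mem_singleton]
          constructor
          · rintro ⟨h | h, h3⟩
            · left
              rw [← h3, hfix' x h]
            · exact Or.inr ⟨h, h3⟩
          · rintro (rfl | ⟨h, h3⟩)
            · exact ⟨Or.inl he, hfix' x he⟩
            · exact ⟨Or.inr h, h3⟩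
        have h3 : Disjoint {e} (D.filter fun x => π' x = e) := by
          rw [disjoint_singleton_left]
          intro h
          exact hE₀D e he (mem_filter.1 h).1
        rw [h2, card_union_of_disjoint h3, card_singleton]
        congr 1
        split_ifs with heL
        · rw [card_eq_one]
          refine ⟨(σ.symm ⟨e, heL⟩ : α), ?_⟩
          ext x
          rw [mem_filter, mem_singleton]
          constructor
          · rintro ⟨hx, hxe⟩
            rw [hπD x hx] at hxe
            have h4 : σ ⟨x, hx⟩ = ⟨e, heL⟩ := Subtype.ext hxe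
            rw [← h4, Equiv.symm_apply_apply]
          · intro hx
            have h5 : x ∈ D := by
              rw [hx]
              exact (σ.symm ⟨e, heL⟩).2
            refine ⟨h5, ?_⟩
            rw [hπD x h5]
            have h6 : (⟨x, h5⟩ : D) = σ.symm ⟨e, heL⟩ := Subtype.ext hx
            rw [h6, Equiv.apply_symm_apply]
        · rw [card_eq_zero, filter_eq_empty_iff]
          intro x hx hxe
          exact heL (hxe ▸ hLD x hx)
      rw [h1]
      rcases hfib e he with h2 | h2
      · rw [if_pos (mem_filter.2 ⟨he, h2⟩), h2]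
      · rw [if_neg (fun h => by
          have := (mem_filter.1 h).2
          omega), h2]
  · -- the number of points
    unfold np
    rw [hE₀]
    have h1 : ∀ e ∈ E, cls r E e = E.filter fun x => π x = π e := by
      intro e he
      ext x
      rw [mem_cls, mem_filter]
      constructor
      · rintro ⟨hx, h⟩
        exact ⟨hx, ((hπ2 e he x hx).2 h).symm⟩
      · rintro ⟨hx, h⟩
        exact ⟨hx, (hπ2 e he x hx).1 h.symm⟩
    have h2 : E.image (cls r E) = (E.image π).image fun y => E.filter fun x => π x = y := by
      rw [image_image]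
      apply image_congr
      intro e he
      exact h1 e (mem_coe.1 he)
    rw [h2, card_image_of_injOn]
    intro a ha b hb hab
    have ha' := mem_coe.1 ha
    have h3 : a ∈ E.filter fun x => π x = a := mem_filter.2 ⟨hsub ha', hfix a ha'⟩
    have h4 : (E.filter fun x => π x = a) = E.filter fun x => π x = b := hab
    rw [h4] at h3
    rw [← hfix a ha']
    exact (mem_filter.1 h3).2

end Pool.Agent.SL82
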