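import Pool.Agent.SL82.Min
import Pool.Agent.WT59.Final

/-!
# SL82: the final wrapper

* `MinH α` : a minimal system (for the number of points), together with its dual, is white;
* `quads_of_min` : if `MinH (α × ℕ)` holds then the toric ideal of every finite matroid on `α` of positive rank is
  generated by quadrics.
-/

set_option autoImplicit false

namespace Pool.Agent.SL82

open Finset Pool.Agent.DT3 Pool.Agent.CF98 Pool.Agent.WT59 Pool.Agent.WD Pool.Agent.H94 MvPolynomial

/-- A minimal system (for the number of points), together with its dual, is white. -/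
def MinH (α : Type*) [DecidableEq α] : Prop :=
  ∀ (r : Finset α → ℕ) (E : Finset α) (f : ℕ) (r' : Finset α → ℕ) (E' : Finset α) (f' : ℕ)
    (E₀ : Finset α) (π π' : α → α),
    (∀ (r₁ : Finset α → ℕ) (E₁ : Finset α) (f₁ : ℕ), Env r₁ E₁ f₁ → np r₁ E₁ < E₀.card →
      Wt r₁ E₁ f₁) →
    Env r E f → Strict r E → 2 ≤ f → np r E = E₀.card →
    Env r' E' f' → Strict r' E' → 2 ≤ f' → np r' E' = E₀.card →
    Dl r E f r' E' f' E₀ π π' → Wt r E f

theorem sw_of_min {α : Type*} [DecidableEq α] [Infinite α] (H : MinH α) : SW α :=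
  fun E r f Q A B hE _ hQ hA hB hq => wt_of_min H (np r E) r E f hE rfl Q A B hQ hA hB hq

theorem quads_of_min {α : Type*} [DecidableEq α] (H : MinH (α × ℕ)) (K : Type*) [Field K]
    (M : Matroid α) [M.Finite] [M.RankPos] :
    toricIdeal K M = Ideal.span {f | f ∈ toricIdeal K M ∧ f.IsHomogeneous 2} := by
  have h : SW (α × ℕ) := by
    rcases isEmpty_or_nonempty α with h0 | h0
    · intro E r f Q A B hE _ hQ hA hB hq
      have h1 : A = B := by
        ext x
        exact (IsEmpty.false x.1).elim
      rw [← h1]
      exact hq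
    · exact sw_of_min H
  exact quadsW h K M

end Pool.Agent.SL82
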