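import Pool.Agent.SL82.DlC
import Pool.Agent.SL82.Rk

/-!
# SL82: the number of points of the two small systems of note 2805

* `np_le` : upper bound for the number of points;
* `flat_of` : a set of slack one and of rank less than `f` is a flat;
* `np_mo`, `np_mi` : the outer and the inner system have fewer points than `N`;
* `Dl.np_le` : the dual system has at most as many points.
-/

set_option autoImplicit false

namespace Pool.Agent.SL82

open Finset Pool.Agent.DT3 Pool.Agent.CF98

variable {α : Type*} [DecidableEq α] {r r' : Finset α → ℕ} {E E' E₀ A B C X Y Z P : Finset α}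
  {f f' : ℕ} {π π' : α → α} {x y z e e' : α}

theorem cls_eq (hr : RankFn r) (he : 0 < r {e}) (hx : 0 < r {x}) (h : r {e, x} ≤ 1) :
    cls r E e = cls r E x := by
  have h1 : r {e, x} = 1 := by
    have := hr.mono {e} {e, x} (by simp)
    omega
  have key : ∀ a b : α, 0 < r {a} → 0 < r {b} → r {a, b} = 1 → ∀ y, r {a, y} = 1 → r {b, y} = 1 := by
    intro a b ha hb hab y hy
    have h2 := par_trans hr ha (par_comm.trans hab) hy
    have := hr.mono {b} {b, y} (by simp)
    omega
  ext y
  rw [mem_cls, mem_cls]
  exact ⟨fun h2 => ⟨h2.1, key e x he hx h1 y h2.2⟩,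
    fun h2 => ⟨h2.1, key x e hx he (par_comm.trans h1) y h2.2⟩⟩

/-- Upper bound for the number of points. -/
theorem np_le {β : Type*} [DecidableEq β] (hr : RankFn r) (hl : ∀ e ∈ E, 0 < r {e}) (g : α → β)
    (hg : ∀ e ∈ E, ∀ x ∈ E, g e = g x → r {e, x} ≤ 1) : np r E ≤ (E.image g).card := by
  classical
  unfold np
  let h : β → Finset α := fun b => if hb : ∃ e ∈ E, g e = b then cls r E hb.choose else ∅
  have h1 : E.image (cls r E) ⊆ (E.image g).image h := by
    intro c hc
    obtain ⟨e, he, rfl⟩ := mem_image.1 hc
    have hb : ∃ x ∈ E, g x = g e := ⟨e, he, rfl⟩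
    refine mem_image.2 ⟨g e, mem_image_of_mem g he, ?_⟩
    have h2 : h (g e) = cls r E hb.choose := dif_pos hb
    rw [h2]
    obtain ⟨h3, h4⟩ := hb.choose_spec
    exact cls_eq hr (hl _ h3) (hl e he) (hg _ h3 e he h4)
  exact (card_le_card h1).trans card_image_le

theorem loopless (hE : Env r E f) (he : e ∈ E) : 0 < r {e} := by
  have := hE.three {e} (singleton_subset_iff.2 he)
  rw [card_singleton] at this
  omega

/-- A set of slack one is a flat. -/
theorem flat_of (hE : Env r E f) (hS : Strict r E) (hP : P ⊆ E) (hc : P.card + 1 = 3 * r P)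
    (hf : r P < f) (hx : x ∈ E) (h : r (insert x P) = r P) : x ∈ P := by
  by_contra hn
  have h1 := hS (insert x P) (insert_subset hx hP) ⟨x, mem_insert_self x P⟩ (by
    intro h2
    have := hE.rank
    rw [← h2] at this
    omega)
  rw [card_insert_of_notMem hn, h] at h1
  omega

theorem cls_flat (hE : Env r E f) (hP : P ⊆ E) (hfl : ∀ x ∈ E, r (insert x P) = r P → x ∈ P)
    (he : e ∈ P) (hx : x ∈ E) (h : cls r E e = cls r E x) : x ∈ P := by
  have h1 : x ∈ cls r E x := by
    rw [mem_cls, pair_eq_singleton]
    refine ⟨hx, ?_⟩
    have h2 := loopless hE hx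
    have h3 := hE.rk.le_card {x}
    rw [card_singleton] at h3
    omega
  rw [← h, mem_cls] at h1
  apply hfl x hx
  apply hE.rk.mono_insert (X := {e}) _ (singleton_subset_iff.2 he)
  rw [show insert x {e} = ({e, x} : Finset α) from pair_comm _ _, h1.2]
  have h2 := loopless hE (hP he)
  have h3 := hE.rk.le_card {e}
  rw [card_singleton] at h3
  omega

theorem np_split (hE : Env r E f) (hP : P ⊆ E) (hfl : ∀ x ∈ E, r (insert x P) = r P → x ∈ P) :
    np r E = (P.image (cls r E)).card + ((E \ P).image (cls r E)).card := by
  unfold np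
  rw [← card_union_of_disjoint, ← image_union, union_sdiff_of_subset hP]
  rw [disjoint_left]
  intro c hc hc'
  obtain ⟨e, he, rfl⟩ := mem_image.1 hc
  obtain ⟨x, hx, hxe⟩ := mem_image.1 hc'
  exact (mem_sdiff.1 hx).2 (cls_flat hE hP hfl he (mem_sdiff.1 hx).1 hxe.symm)

/-- If the elements of `X` form at most one class then the rank of `X` is at most one. -/
theorem rk_one (hE : Env r E f) (hX : X ⊆ E) (h : (X.image (cls r E)).card ≤ 1) : r X ≤ 1 := by
  by_cases h0 : X.Nonempty
  · obtain ⟨e, he⟩ := h0
    have h1 : r ({e} ∪ X) = r {e} := by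
      apply rk_union_eq hE.rk
      intro x hx
      have h2 : cls r E e = cls r E x :=
        card_le_one.1 h _ (mem_image_of_mem _ he) _ (mem_image_of_mem _ hx)
      have h3 : x ∈ cls r E x := by
        rw [mem_cls, pair_eq_singleton]
        refine ⟨hX hx, ?_⟩
        have h2 := loopless hE (hX hx)
        have h3 := hE.rk.le_card {x}
        rw [card_singleton] at h3
        omega
      rw [← h2, mem_cls] at h3
      rw [show insert x {e} = ({e, x} : Finset α) from pair_comm _ _, h3.2]
      have h4 := loopless hE (hX he)
      have h5 := hE.rk.le_card {e}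
      rw [card_singleton] at h5
      omega
    have h2 := hE.rk.mono X ({e} ∪ X) subset_union_right
    have h3 := hE.rk.le_card {e}
    rw [card_singleton] at h3
    omega
  · rw [not_nonempty_iff_eq_empty] at h0
    rw [h0, hE.rk.empty]
    omega

theorem cls_rk (hE : Env r E f) (hx : x ∈ E) (h : cls r E e = cls r E x) :
    r {e, x} ≤ 1 := by
  have h1 : x ∈ cls r E x := by
    rw [mem_cls, pair_eq_singleton]
    refine ⟨hx, ?_⟩
    have h2 := loopless hE hx
    have h3 := hE.rk.le_card {x}
    rw [card_singleton] at h3
    omega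
  rw [← h, mem_cls] at h1
  exact h1.2.le

/-- The outer system has fewer points. -/
theorem np_mo {p p' : α} {U₁ U₂ : Finset α} (hE : Env r E f) (hP : P ⊆ E)
    (hfl : ∀ x ∈ E, r (insert x P) = r P → x ∈ P) (h2 : 2 ≤ r P) (hp : p ∈ P) (hp' : p' ∈ P)
    (hU₁ : U₁ ⊆ P) (hU₂ : U₂ ⊆ P) (h1 : r U₁ + 1 = r P) (h1' : r U₂ + 1 = r P)
    (hl : ∀ e ∈ (E \ P) ∪ {p, p'}, 0 < mo r P p p' U₁ U₂ {e}) :
    np (mo r P p p' U₁ U₂) ((E \ P) ∪ {p, p'}) < np r E := by
  classical
  have hr := hE.rk
  have hm := mo_rk hr hp hp' hU₁ hU₂ h1 h1'
  let g : α → Finset α := fun e => if e ∈ P then ∅ else cls r E e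
  have hne : ∀ e ∈ E, (cls r E e).Nonempty := by
    intro e he
    refine ⟨e, ?_⟩
    rw [mem_cls, pair_eq_singleton]
    refine ⟨he, ?_⟩
    have h2 := loopless hE he
    have h3 := hr.le_card {e}
    rw [card_singleton] at h3
    omega
  have hmem : ∀ e ∈ (E \ P) ∪ {p, p'}, e ∉ P → e ∈ E := by
    intro e he hn
    rcases mem_union.1 he with h | h
    · exact (mem_sdiff.1 h).1
    · rw [mem_insert, mem_singleton] at h
      rcases h with rfl | rfl
      · exact absurd hp hn
      · exact absurd hp' hn
  have hmem' : ∀ e ∈ (E \ P) ∪ {p, p'}, e ∈ P → e = p ∨ e = p' := by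
    intro e he hn
    rcases mem_union.1 he with h | h
    · exact absurd hn (mem_sdiff.1 h).2
    · rw [mem_insert, mem_singleton] at h
      exact h
  have h3 := np_le hm hl g (by
    intro e he x hx hge
    by_cases heP : e ∈ P
    · by_cases hxP : x ∈ P
      · have h4 : p ∈ ({e, x} : Finset α) ∨ p' ∈ ({e, x} : Finset α) := by
          rcases hmem' e he heP with rfl | rfl
          · left
            simp
          · right
            simp
        have h5 := mo_in hr hU₁ hU₂ h4
        have h6 : P ∪ {e, x} = P := by
          apply union_eq_left.2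
          intro y hy
          rw [mem_insert, mem_singleton] at hy
          rcases hy with rfl | rfl
          · exact heP
          · exact hxP
        rw [h6] at h5
        omega
      · exfalso
        have h4 : g e = ∅ := if_pos heP
        have h5 : g x = cls r E x := if_neg hxP
        rw [h4, h5] at hge
        exact (hne x (hmem x hx hxP)).ne_empty hge.symm
    · by_cases hxP : x ∈ P
      · exfalso
        have h4 : g x = ∅ := if_pos hxP
        have h5 : g e = cls r E e := if_neg heP
        rw [h4, h5] at hge
        exact (hne e (hmem e he heP)).ne_empty hge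
      · have h5 : g x = cls r E x := if_neg hxP
        have h6 : g e = cls r E e := if_neg heP
        rw [h5, h6] at hge
        have h7 := cls_rk hE (hmem x hx hxP) hge
        have h8 : Disjoint ({e, x} : Finset α) P := by
          rw [disjoint_left]
          intro y hy
          rw [mem_insert, mem_singleton] at hy
          rcases hy with rfl | rfl
          · exact heP
          · exact hxP
        have h9 := mo_out hr hp hp' hU₁ hU₂ h1 h1' h8
        have k1 := rk_le_add hr U₁ {e, x}
        have k2 := rk_le_add hr U₂ {e, x}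
        omega)
  have h4 : (((E \ P) ∪ {p, p'}).image g).card ≤ ((E \ P).image (cls r E)).card + 1 := by
    have h5 : ((E \ P) ∪ {p, p'}).image g ⊆ insert ∅ ((E \ P).image (cls r E)) := by
      intro c hc
      obtain ⟨e, he, rfl⟩ := mem_image.1 hc
      by_cases heP : e ∈ P
      · have h5 : g e = ∅ := if_pos heP
        rw [h5]
        exact mem_insert_self _ _
      · have h6 : g e = cls r E e := if_neg heP
        rw [h6]
        exact mem_insert_of_mem (mem_image_of_mem _ (mem_sdiff.2 ⟨hmem e he heP, heP⟩))
    exact (card_le_card h5).trans (card_insert_le _ _)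
  have h5 := np_split hE hP hfl
  have h6 : 1 < (P.image (cls r E)).card := by
    by_contra hn
    have := rk_one hE hP (by omega)
    omega
  omega

/-- The inner system has fewer points. -/
theorem np_mi {t : α} {T₁ T₂ : Finset α} {g : ℕ} (hE : Env r E f) (hP : P ⊆ E)
    (hfl : ∀ x ∈ E, r (insert x P) = r P → x ∈ P) (hc : P.card + 1 = 3 * r P) (hf : r P < f)
    (ht : t ∉ P) (h1 : T₁.card = g + 1) (h1' : r (T₁ ∪ P) = r P + g)
    (h2 : T₂.card = g + 1) (h2' : r (T₂ ∪ P) = r P + g)
    (hl : ∀ e ∈ insert t P, 0 < mi r P t T₁ T₂ g {e}) :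
    np (mi r P t T₁ T₂ g) (insert t P) < np r E := by
  classical
  have hr := hE.rk
  have hm := mi_rk hr ht h1 h1' h2 h2'
  let φ : α → Finset α := fun e => if e ∈ P then cls r E e else ∅
  have hne : ∀ e ∈ E, (cls r E e).Nonempty := by
    intro e he
    refine ⟨e, ?_⟩
    rw [mem_cls, pair_eq_singleton]
    refine ⟨he, ?_⟩
    have h2 := loopless hE he
    have h3 := hr.le_card {e}
    rw [card_singleton] at h3
    omega
  have h3 := np_le hm hl φ (by
    intro e he x hx hge
    by_cases heP : e ∈ P
    · by_cases hxP : x ∈ P
      · have h5 : φ x = cls r E x := if_pos hxP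
        have h6 : φ e = cls r E e := if_pos heP
        rw [h5, h6] at hge
        have h7 := cls_rk hE (hP hxP) hge
        have h8 : t ∉ ({e, x} : Finset α) := by
          intro h
          rw [mem_insert, mem_singleton] at h
          rcases h with rfl | rfl
          · exact ht heP
          · exact ht hxP
        rw [mi_out h8]
        exact (hr.mono _ _ inter_subset_left).trans h7
      · exfalso
        have h4 : φ x = ∅ := if_neg hxP
        have h5 : φ e = cls r E e := if_pos heP
        rw [h4, h5] at hge
        exact (hne e (hP heP)).ne_empty hge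
    · by_cases hxP : x ∈ P
      · exfalso
        have h4 : φ e = ∅ := if_neg heP
        have h5 : φ x = cls r E x := if_pos hxP
        rw [h4, h5] at hge
        exact (hne x (hP hxP)).ne_empty hge.symm
      · have h4 : e = t := (mem_insert.1 he).resolve_right heP
        have h5 : x = t := (mem_insert.1 hx).resolve_right hxP
        rw [h4, h5, pair_eq_singleton]
        have h6 := hm.le_card {t}
        rw [card_singleton] at h6
        exact h6)
  have h4 : ((insert t P).image φ).card ≤ (P.image (cls r E)).card + 1 := by
    have h5 : (insert t P).image φ ⊆ insert ∅ (P.image (cls r E)) := by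
      intro c hc
      obtain ⟨e, he, rfl⟩ := mem_image.1 hc
      by_cases heP : e ∈ P
      · have h5 : φ e = cls r E e := if_pos heP
        rw [h5]
        exact mem_insert_of_mem (mem_image_of_mem _ heP)
      · have h6 : φ e = ∅ := if_neg heP
        rw [h6]
        exact mem_insert_self _ _
    exact (card_le_card h5).trans (card_insert_le _ _)
  have h5 := np_split hE hP hfl
  have h6 : 1 < ((E \ P).image (cls r E)).card := by
    by_contra hn
    have k1 := rk_one hE (sdiff_subset : E \ P ⊆ E) (by omega)
    have k2 := hE.three (E \ P) sdiff_subset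
    have k3 := card_sdiff_add_card_eq_card hP
    have k4 := hE.card
    omega
  omega

/-- The dual system has at most as many points. -/
theorem Dl.np_le (D : Dl r E f r' E' f' E₀ π π') (hE : Env r E f) : np r' E' ≤ E₀.card := by
  have hE' := D.env hE
  have h := SL82.np_le hE'.rk (fun e he => loopless hE' he) π' (by
    intro e he x hx hex
    rw [← D.pull' {e, x} (by
      intro y hy
      rw [mem_insert, mem_singleton] at hy
      rcases hy with rfl | rfl
      · exact he
      · exact hx)]
    have h1 : ({e, x} : Finset α).image π' ⊆ {π' x} := by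
      intro y hy
      obtain ⟨z, hz, rfl⟩ := mem_image.1 hy
      rw [mem_insert, mem_singleton] at hz
      rcases hz with rfl | rfl
      · rw [hex]
        exact mem_singleton_self _
      · exact mem_singleton_self _
    have h2 := hE'.rk.mono _ _ h1
    have h3 := hE'.rk.le_card {π' x}
    rw [card_singleton] at h3
    omega)
  rw [D.im'] at h
  exact h

end Pool.Agent.SL82
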